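import Pool.Agent.MP_2a5a28_nt.H1D.Defs

set_option autoImplicit false

namespace Pool.Agent.MP_2a5a28_nt.H1D

open Finset NumberField Module
open H15Z H63Y

theorem cross_ex (a b : ℤ) : ∃ (g : ℕ) (a' b' s t : ℤ),
    a = g * a' ∧ b = g * b' ∧ s * a' + t * b' = 1 := by
  obtain ⟨a', b', h1, h2, h3⟩ := extract_gcd a b
  obtain ⟨s, t, h4⟩ := (gcd_isUnit_iff a' b').1 h3
  rw [← Int.coe_gcd] at h1 h2
  exact ⟨Int.gcd a b, a', b', s, t, h1, h2, h4⟩

theorem cross_row : CROSS_s := by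
  refine ⟨fun ξ => ?_, fun ξ hξ => ?_, fun ξ0 c u v h1 hu hv => ?_⟩
  · obtain ⟨g, a, b, s, t, h1, h2, h3⟩ := cross_ex (ξ 0) (ξ 1)
    refine ⟨![b, -a, 0], ![ξ 2 * s, ξ 2 * t, -g], ?_⟩
    rw [cross_apply]
    funext i
    fin_cases i
    · simp [h1, mul_comm]
    · simp [h2, mul_comm]
    · simp
      linear_combination ξ 2 * h3
  · obtain ⟨g, a, b, s, t, h1, h2, h3⟩ := cross_ex (ξ 0) (ξ 1)
    obtain ⟨g', a', b', s', t', h4, h5, h6⟩ := cross_ex g (ξ 2)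
    have e : ξ = (g' : ℤ) • ![a' * a, a' * b, b'] := by
      funext i
      fin_cases i
      · simp
        rw [h1, h4]; ring
      · simp
        rw [h2, h4]; ring
      · simp
        exact h5
    refine ⟨g', ![a' * a, a' * b, b'], ?_, e, ![s' * s, s' * t, t'], ?_⟩
    · rcases Nat.eq_zero_or_pos g' with h | h
      · exact absurd (by rw [e, h]; simp) hξ
      · exact h
    · simp [Fin.sum_univ_three]
      linear_combination s' * a' * h3 + h6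
  · simp only [Fin.sum_univ_three] at h1 hu hv
    refine ⟨c 0 * (u 1 * v 2 - u 2 * v 1) + c 1 * (u 2 * v 0 - u 0 * v 2) +
      c 2 * (u 0 * v 1 - u 1 * v 0), ?_⟩
    rw [cross_apply]
    funext i
    fin_cases i
    · simp
      linear_combination (-(u 1 * v 2 - u 2 * v 1)) * h1 + (c 2 * u 1 - c 1 * u 2) * hv -
        (c 2 * v 1 - c 1 * v 2) * hu
    · simp
      linear_combination (-(u 2 * v 0 - u 0 * v 2)) * h1 + (c 0 * u 2 - c 2 * u 0) * hv -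
        (c 0 * v 2 - c 2 * v 0) * hu
    · simp
      linear_combination (-(u 0 * v 1 - u 1 * v 0)) * h1 + (c 1 * u 0 - c 0 * u 1) * hv -
        (c 1 * v 0 - c 0 * v 1) * hu

theorem pl1_card {α : Type} (l : ℕ) (hl : l.Prime) (S : Finset α) (a b : α → ℤ)
    (h : ∀ u ∈ S, ∀ v ∈ S, u ≠ v → ¬(l : ℤ) ∣ a u * b v - b u * a v) : S.card ≤ l + 1 := by
  classical
  have : Fact l.Prime := ⟨hl⟩
  have h1 : S.card ≤ (univ : Finset (Option (ZMod l))).card := by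
    refine card_le_card_of_injOn
      (fun u => if (b u : ZMod l) = 0 then none else some ((a u : ZMod l) / (b u : ZMod l)))
      (fun _ _ => mem_coe.2 (mem_univ _)) fun u hu v hv huv => ?_
    by_contra hne
    apply h u hu v hv hne
    rw [← ZMod.intCast_zmod_eq_zero_iff_dvd]
    push_cast
    by_cases h1 : (b u : ZMod l) = 0 <;> by_cases h2 : (b v : ZMod l) = 0
    · rw [h1, h2]; ring
    · simp [h1, h2] at huv
    · simp [h1, h2] at huv
    · simp only [h1, h2, if_false, Option.some.injEq] at huv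
      rw [div_eq_div_iff h1 h2] at huv
      rw [huv]; ring
  rwa [card_univ, Fintype.card_option, ZMod.card] at h1

theorem pl1_row : PL1_s := by
  intro ξ0 c J S hJ hc h
  obtain ⟨l, hl, h1, h2⟩ := Nat.exists_prime_lt_and_le_two_mul J (by omega)
  have hl' : Prime (l : ℤ) := Nat.prime_iff_prime_int.1 hl
  obtain ⟨i, hi⟩ : ∃ i, ¬(l : ℤ) ∣ ξ0 i := by
    by_contra hn
    push Not at hn
    exact hl'.not_dvd_one (hc ▸ dvd_sum fun i _ => (hn i).mul_left _)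
  have hx : ∀ u v : Fin 3 → ℤ,
      crossProduct u v i = u (i + 1) * v (i + 2) - u (i + 2) * v (i + 1) := by
    intro u v
    rw [cross_apply]
    fin_cases i <;> rfl
  have h3 := pl1_card l hl S (fun u => u (i + 1)) (fun u => u (i + 2)) fun u hu v hv huv hd => by
    obtain ⟨j, j0, j1, j2⟩ := h u hu v hv huv
    rw [← hx, j2, Pi.smul_apply, smul_eq_mul] at hd
    rcases hl'.dvd_or_dvd hd with h4 | h4
    · have := Int.le_of_dvd (abs_pos.2 j0) ((dvd_abs _ _).2 h4)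
      omega
    · exact hi h4
  omega

theorem pl2_coord (M : AddSubgroup (Fin 3 → ℤ)) : ∃ (d : ℕ) (f : (Fin 3 → ℤ) → Fin d → ℤ),
    d ≤ 3 ∧ ∀ (n : ℤ), ∀ u ∈ M, ∀ v ∈ M, (∀ i, n ∣ f u i - f v i) → ∃ η ∈ M, u - v = n • η := by
  classical
  obtain ⟨d, b⟩ := Submodule.basisOfPid (Pi.basisFun ℤ (Fin 3)) (AddSubgroup.toIntSubmodule M)
  have hd : d ≤ 3 := by
    have h1 : finrank ℤ (AddSubgroup.toIntSubmodule M) = d := by
      simpa using finrank_eq_card_basis b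
    have h2 := Submodule.finrank_le (AddSubgroup.toIntSubmodule M)
    have h3 : finrank ℤ (Fin 3 → ℤ) = 3 := by simp
    omega
  refine ⟨d, fun u => if h : u ∈ AddSubgroup.toIntSubmodule M then b.repr ⟨u, h⟩ else 0, hd, ?_⟩
  intro n u hu v hv h
  have hu' : u ∈ AddSubgroup.toIntSubmodule M := hu
  have hv' : v ∈ AddSubgroup.toIntSubmodule M := hv
  simp only [dif_pos hu', dif_pos hv'] at h
  choose c hc using h
  refine ⟨(b.equivFun.symm c : AddSubgroup.toIntSubmodule M), (b.equivFun.symm c).2, ?_⟩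
  have e : (⟨u, hu'⟩ - ⟨v, hv'⟩ : AddSubgroup.toIntSubmodule M) = n • b.equivFun.symm c := by
    apply b.equivFun.injective
    rw [map_sub, map_smul, LinearEquiv.apply_symm_apply]
    funext i
    simpa [Basis.equivFun_apply] using hc i
  exact congrArg Subtype.val e

theorem pl2_row : PL2_s := by
  classical
  intro ν hν M lam B X hlam hB hM hX
  obtain ⟨h0, hs, ha⟩ := hν
  rcases X.eq_empty_or_nonempty with rfl | ⟨ξ, hξ⟩
  · simp only [card_empty, Nat.cast_zero, zero_mul]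
    positivity
  obtain ⟨L, hL, hL3⟩ : ∃ L : ℝ, 0 < L ∧ L ^ 3 = lam :=
    ⟨lam ^ ((3 : ℕ) : ℝ)⁻¹, Real.rpow_pos_of_pos hlam _,
      Real.rpow_inv_natCast_pow hlam.le (by norm_num)⟩
  have hmin : ∀ η ∈ M, η ≠ 0 → L ≤ ν η := by
    intro η hη hne
    have h1 := hM η hη hne
    rw [← hL3] at h1
    exact le_of_pow_le_pow_left₀ (by norm_num) (h0 η) h1
  have hLB : L ≤ B := (hmin ξ (hX ξ hξ).1 (hX ξ hξ).2.1).trans (hX ξ hξ).2.2
  obtain ⟨n, hn1, hn2⟩ : ∃ n : ℕ, 2 * B < n * L ∧ n * L ≤ 3 * B := by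
    refine ⟨⌊2 * B / L⌋₊ + 1, ?_, ?_⟩
    · have h1 := Nat.lt_floor_add_one (2 * B / L)
      rw [div_lt_iff₀ hL] at h1
      push_cast
      exact h1
    · have h1 : (⌊2 * B / L⌋₊ : ℝ) ≤ 2 * B / L := Nat.floor_le (by positivity)
      rw [le_div_iff₀ hL] at h1
      push_cast
      linarith
  have hn0 : n ≠ 0 := by
    rintro rfl
    simp only [Nat.cast_zero, zero_mul] at hn1
    linarith
  have : NeZero n := ⟨hn0⟩
  obtain ⟨d, f, hd, hf⟩ := pl2_coord M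
  have hinj : Set.InjOn (fun u (i : Fin d) => ((f u i : ℤ) : ZMod n)) (X : Set (Fin 3 → ℤ)) := by
    intro u hu v hv huv
    have hu' := hX u hu
    have hv' := hX v hv
    obtain ⟨η, hη, e⟩ := hf n u hu'.1 v hv'.1 (fun i => by
      have h1 := congrFun huv i
      exact (ZMod.intCast_eq_intCast_iff_dvd_sub _ _ _).1 h1.symm)
    by_contra hne
    have hη0 : η ≠ 0 := by
      rintro rfl
      rw [smul_zero, sub_eq_zero] at e
      exact hne e
    have h1 : ν (u - v) ≤ 2 * B := by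
      have h2 := ha u ((-1 : ℤ) • v)
      rw [hs, neg_one_smul, ← sub_eq_add_neg] at h2
      simp only [Int.cast_neg, Int.cast_one, abs_neg, abs_one, one_mul] at h2
      linarith [hu'.2.2, hv'.2.2]
    rw [e, hs] at h1
    have h3 := hmin η hη hη0
    have h4 : |((n : ℤ) : ℝ)| = n := by
      rw [Int.cast_natCast]
      exact abs_of_nonneg (Nat.cast_nonneg n)
    rw [h4] at h1
    have h5 : (n : ℝ) * L ≤ n * ν η := mul_le_mul_of_nonneg_left h3 (Nat.cast_nonneg n)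
    linarith
  have hcard : X.card ≤ n ^ 3 := by
    have h1 := card_le_card_of_injOn (t := (univ : Finset (Fin d → ZMod n))) _
      (fun _ _ => mem_coe.2 (mem_univ _)) hinj
    rw [card_univ, Fintype.card_fun, ZMod.card, Fintype.card_fin] at h1
    exact h1.trans (Nat.pow_le_pow_right (Nat.pos_of_ne_zero hn0) hd)
  have h1 : (X.card : ℝ) ≤ (n : ℝ) ^ 3 := by exact_mod_cast hcard
  calc (X.card : ℝ) * lam ≤ (n : ℝ) ^ 3 * lam := mul_le_mul_of_nonneg_right h1 hlam.le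
    _ = (n * L) ^ 3 := by rw [← hL3, mul_pow]
    _ ≤ (3 * B) ^ 3 := pow_le_pow_left₀ (by positivity) hn2 3
    _ = 27 * B ^ 3 := by ring

theorem plane_one (hCROSS : CROSS_s) (hPL1 : PL1_s) (hPL2 : PL2_s) (ν : (Fin 3 → ℤ) → ℝ)
    (hν : Nrm ν) (P : ℕ) (M : AddSubgroup (Fin 3 → ℤ)) (lam A : ℝ) (S B : Finset (Fin 3 → ℤ))
    (hP : 1 ≤ P) (hl : 0 < lam) (hA : 0 ≤ A)
    (hM : ∀ ξ ∈ M, ξ ≠ 0 → lam ≤ (P : ℝ) * ν ξ ^ 3)
    (hS : ∀ u ∈ S, ∀ v ∈ S, u ≠ v → crossProduct u v ≠ 0 ∧ ν (crossProduct u v) ≤ A) (hB : B ⊆ S)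
    (h : ∀ u ∈ B, ∃ ξ ∈ M, (∃ c : Fin 3 → ℤ, ∑ i, c i * ξ i = 1) ∧ (P : ℝ) * ν ξ ≤ A ∧
      ∑ i, ξ i * u i = 0) : B.card * lam ≤ 162 * A ^ 3 := by
  classical
  choose! f fM fc fA fu using h
  have P0 : (0 : ℝ) < P := by exact_mod_cast hP
  set Z := B.image f with hZ
  have z : ∀ ξ ∈ Z, ξ ∈ M ∧ (∃ c : Fin 3 → ℤ, ∑ i, c i * ξ i = 1) ∧ (P : ℝ) * ν ξ ≤ A ∧ ξ ≠ 0 ∧
      0 < ν ξ := by
    intro ξ hξ
    obtain ⟨u, hu, rfl⟩ := mem_image.1 hξ
    have h0 : f u ≠ 0 := by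
      intro e
      obtain ⟨c, hc⟩ := fc u hu
      rw [e] at hc
      simp at hc
    refine ⟨fM u hu, fc u hu, fA u hu, h0, lt_of_le_of_ne (hν.1 _) fun e => ?_⟩
    have := hM _ (fM u hu) h0
    rw [← e] at this
    norm_num at this
    linarith
  let J : (Fin 3 → ℤ) → ℕ := fun ξ => ⌊A / ν ξ⌋₊
  have JP : ∀ ξ ∈ Z, P ≤ J ξ := fun ξ hξ =>
    Nat.le_floor ((le_div_iff₀ (z ξ hξ).2.2.2.2).2 (z ξ hξ).2.2.1)
  have fib : ∀ ξ ∈ Z, (B.filter fun u => f u = ξ).card ≤ 6 * P * (J ξ / P) := by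
    intro ξ hξ
    obtain ⟨-, ⟨c, hc⟩, -, -, hpos⟩ := z ξ hξ
    have h1 := hPL1 ξ c (J ξ) (B.filter fun u => f u = ξ) (hP.trans (JP ξ hξ)) hc (by
      intro u hu v hv huv
      obtain ⟨hu, eu⟩ := mem_filter.1 hu
      obtain ⟨hv, ev⟩ := mem_filter.1 hv
      obtain ⟨j, hj⟩ := hCROSS.2.2 ξ c u v hc (eu ▸ fu u hu) (ev ▸ fu v hv)
      obtain ⟨n0, nA⟩ := hS u (hB hu) v (hB hv) huv
      refine ⟨j, fun e => n0 (by rw [hj, e, zero_smul]), ?_, hj⟩
      rw [hj, hν.2.1] at nA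
      have h2 : j.natAbs ≤ J ξ := Nat.le_floor (by
        rw [le_div_iff₀ hpos, Nat.cast_natAbs, Int.cast_abs]
        exact nA)
      rw [Int.abs_eq_natAbs]
      exact_mod_cast h2)
    have h3 := Nat.div_add_mod (J ξ) P
    have h4 := Nat.mod_lt (J ξ) hP
    have h5 : 1 ≤ J ξ / P := (Nat.one_le_div_iff hP).2 (JP ξ hξ)
    have h6 : P ≤ P * (J ξ / P) := Nat.le_mul_of_pos_right _ h5
    rw [mul_assoc]
    omega
  let X := (Z.sigma fun ξ => Icc 1 (J ξ / P)).image fun t => (t.2 : ℤ) • t.1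
  have hX : X.card = ∑ ξ ∈ Z, J ξ / P := by
    rw [card_image_of_injOn, card_sigma]
    · exact sum_congr rfl fun ξ _ => by rw [Nat.card_Icc]; rfl
    · rintro ⟨ξ, i⟩ ht ⟨ξ', i'⟩ ht' e
      obtain ⟨h1, h2⟩ := mem_sigma.1 (mem_coe.1 ht)
      obtain ⟨h1', h2'⟩ := mem_sigma.1 (mem_coe.1 ht')
      obtain ⟨-, ⟨c, hc⟩, -⟩ := z ξ h1
      obtain ⟨-, ⟨c', hc'⟩, -⟩ := z ξ' h1'
      have e' : (i : ℤ) • ξ = (i' : ℤ) • ξ' := e
      have ee : ∀ l, (i : ℤ) * ξ l = i' * ξ' l := fun l => congrFun e' l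
      rw [Fin.sum_univ_three] at hc hc'
      have d1 : (i' : ℤ) ∣ i := ⟨c 0 * ξ' 0 + c 1 * ξ' 1 + c 2 * ξ' 2, by
        linear_combination (-(i : ℤ)) * hc + c 0 * ee 0 + c 1 * ee 1 + c 2 * ee 2⟩
      have d2 : (i : ℤ) ∣ i' := ⟨c' 0 * ξ 0 + c' 1 * ξ 1 + c' 2 * ξ 2, by
        linear_combination (-(i' : ℤ)) * hc' - c' 0 * ee 0 - c' 1 * ee 1 - c' 2 * ee 2⟩
      obtain rfl : i = i' :=
        Nat.dvd_antisymm (Int.natCast_dvd_natCast.1 d2) (Int.natCast_dvd_natCast.1 d1)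
      have i0 : (i : ℤ) ≠ 0 := by
        have : 1 ≤ i := (mem_Icc.1 h2).1
        omega
      obtain rfl : ξ = ξ' := funext fun l => mul_left_cancel₀ i0 (ee l)
      rfl
  have h7 := hPL2 ν hν M (lam / P) (A / P) X (by positivity) (by positivity)
    (fun ξ hξ h0 => by rw [div_le_iff₀ P0, mul_comm]; exact hM ξ hξ h0) (by
      intro η hη
      obtain ⟨⟨ξ, i⟩, ht, rfl⟩ := mem_image.1 hη
      obtain ⟨h1, h2⟩ := mem_sigma.1 ht
      obtain ⟨m, -, -, h0, hpos⟩ := z ξ h1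
      have i1 : 1 ≤ i := (mem_Icc.1 h2).1
      have i2 : i ≤ J ξ / P := (mem_Icc.1 h2).2
      refine ⟨M.zsmul_mem m _, smul_ne_zero (by simp only [ne_eq, Nat.cast_eq_zero]; omega) h0, ?_⟩
      have i3 : (i : ℝ) * P ≤ A / ν ξ := by
        refine le_trans ?_ (Nat.floor_le (by positivity))
        exact_mod_cast (Nat.le_div_iff_mul_le hP).1 i2
      rw [le_div_iff₀ hpos] at i3
      rw [hν.2.1, le_div_iff₀ P0, Int.cast_natCast, Nat.abs_cast]
      linarith)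
  have h8 : B.card ≤ 6 * P * X.card := by
    rw [card_eq_sum_card_image f B, hX, mul_sum]
    exact sum_le_sum fib
  have h9 : (B.card : ℝ) ≤ 6 * P * X.card := by exact_mod_cast h8
  have P1 : (1 : ℝ) ≤ P := by exact_mod_cast hP
  calc (B.card : ℝ) * lam ≤ 6 * P * X.card * lam := by gcongr
    _ = 6 * P ^ 2 * (X.card * (lam / P)) := by field_simp
    _ ≤ 6 * P ^ 2 * (27 * (A / P) ^ 3) := by gcongr
    _ = 162 * A ^ 3 / P := by field_simp; ring
    _ ≤ 162 * A ^ 3 := div_le_self (by positivity) P1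

theorem plane_row (hCROSS : CROSS_s) (hPL1 : PL1_s) (hPL2 : PL2_s) : PLANE_s := by
  intro ν hν p k M lam A S Bad hp hl hA hg hM hS hB h
  classical
  have key : ∀ u ∈ Bad, ∃ a ≤ k, ∃ ξ ∈ M a, (∃ c : Fin 3 → ℤ, ∑ i, c i * ξ i = 1) ∧
      ((p ^ a : ℕ) : ℝ) * ν ξ ≤ A ∧ ∑ i, ξ i * u i = 0 := by
    intro u hu
    obtain ⟨v, hv, hne, hm⟩ := h u hu
    obtain ⟨n0, nA⟩ := hS u (hB hu) v hv hne.symm
    obtain ⟨g, ξ, g1, e, hc⟩ := hCROSS.2.1 _ n0
    rw [e] at hm nA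
    obtain ⟨a, ha, hd, hξ⟩ := hg g ξ g1 hm
    refine ⟨a, ha, ξ, hξ, hc, ?_, ?_⟩
    · rw [hν.2.1, Int.cast_natCast, Nat.abs_cast] at nA
      refine le_trans (mul_le_mul_of_nonneg_right ?_ (hν.1 _)) nA
      exact_mod_cast Nat.le_of_dvd g1 hd
    · have g0 : (g : ℤ) ≠ 0 := by omega
      have e0 : ∀ l, crossProduct u v l = g * ξ l := fun l => congrFun e l
      have a0 := e0 0
      have a1 := e0 1
      have a2 := e0 2
      simp only [cross_apply, Matrix.cons_val_zero, Matrix.cons_val_one, Matrix.cons_val_two,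
        Matrix.tail_cons, Matrix.head_cons] at a0 a1 a2
      apply mul_left_cancel₀ g0
      rw [Fin.sum_univ_three]
      linear_combination (-u 0) * a0 - u 1 * a1 - u 2 * a2
  choose! a ha hk using key
  have h1 : ∀ b ∈ range (k + 1), ((Bad.filter fun u => a u = b).card : ℝ) * lam ≤ 162 * A ^ 3 := by
    intro b hb
    refine plane_one hCROSS hPL1 hPL2 ν hν (p ^ b) (M b) lam A S _ (Nat.one_le_pow _ _ hp) hl hA
      (fun ξ hξ h0 => by
        rw [Nat.cast_pow]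
        exact hM b (Nat.lt_succ_iff.1 (mem_range.1 hb)) ξ hξ h0) hS
      ((filter_subset _ _).trans hB) fun u hu => ?_
    obtain ⟨hu', e⟩ := mem_filter.1 hu
    rw [← e]
    exact hk u hu'
  rw [card_eq_sum_card_fiberwise (f := a) (t := range (k + 1))
    fun u hu => mem_coe.2 (mem_range.2 (Nat.lt_succ_of_le (ha u hu))), Nat.cast_sum, sum_mul]
  refine (sum_le_card_nsmul _ _ _ h1).trans (le_of_eq ?_)
  rw [card_range, nsmul_eq_mul]
  push_cast
  ring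

theorem wmin_row : WMIN_s := by
  intro F L _ _ _ _ hF w φ p k N j Q δ u u' b σ r hp hw hD hσ hQ hN δ0 hr h2 hu hu' u0' hq hC mn
  obtain ⟨b0, t1, t2⟩ := h2
  obtain ⟨I, I0, hI⟩ := gDET3 F L hF b u u' σ hσ b0 hu hu' u0' hq
  obtain ⟨r1, r2, r3⟩ := fRHO Q N hQ hN
  obtain ⟨k', n', e1, e2, e3⟩ := r3 p hp
  set ρ := rho Q N with hρ
  have hn := dis3_norm hF σ hσ φ δ
  set A : ℕ := Ideal.absNorm (Ideal.span {δ}) with hA
  have hA' : A = (Algebra.norm ℤ δ).natAbs := Ideal.absNorm_span_singleton δ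
  set Nb : ℕ := Ideal.absNorm b with hNb
  have Nb0 : 0 < Nb := Nat.pos_of_ne_zero fun h => b0 (Ideal.absNorm_eq_zero_iff.1 h)
  have d1 : A ^ j ∣ ρ ^ 3 * Nb ^ N := by
    have := map_dvd Ideal.absNorm t1
    rwa [map_pow, map_mul, map_pow, Ideal.absNorm_span_natCast, RingOfIntegers.rank, hF] at this
  have d2 : Nb ^ N ∣ ρ ^ 3 * A ^ j := by
    have := map_dvd Ideal.absNorm t2
    rwa [map_pow, map_mul, map_pow, Ideal.absNorm_span_natCast, RingOfIntegers.rank, hF] at this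
  have ne : ∀ (a : Fin 3) (z : 𝓞 F), z ≠ 0 → σ a z ≠ 0 := fun a z hz =>
    (map_ne_zero _).2 (by exact_mod_cast hz)
  have W2 : 2 ≤ nq w := (fVAL L w).1
  have W0 : 0 < nq w := by linarith
  have pw : ∀ s n : ℕ, ¬p ∣ n → w ((p ^ s * n : ℕ) : L) = (nq w ^ s)⁻¹ := fun s n hn => by
    rw [Nat.cast_mul, Nat.cast_pow, map_mul, map_pow, dis3_unit w hp hw hn, hw, mul_one, inv_pow]
  have hk : p ^ k ≤ I.natAbs := by
    obtain ⟨s, n, f1, f2⟩ := Nat.exists_eq_pow_mul_and_not_dvd (Int.natAbs_ne_zero.2 I0) p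
      hp.ne_one
    have wI : w (I : L) = (nq w ^ s)⁻¹ := by rw [← dis3_abs, f2, pw s n f1]
    have wR : w (ρ : L) = (nq w ^ k')⁻¹ := by rw [e1, pw k' n' e2]
    have wD : w (NumberField.discr F : L) = 1 := by
      rw [← dis3_abs]
      exact dis3_unit w hp hw fun h => hD (Int.natCast_dvd.2 h)
    have g := congrArg w hI
    simp only [map_mul, map_pow, wD, mul_one] at g
    set m0 := w (σ 0 u * σ 1 u' - σ 1 u * σ 0 u') with hm0
    set m1 := w (σ 1 u * σ 2 u' - σ 2 u * σ 1 u') with hm1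
    set m2 := w (σ 2 u * σ 0 u' - σ 0 u * σ 2 u') with hm2
    have g1 : w (I : L) * w (Nb : L) ^ 2 = m0 * m1 * m2 := by
      refine (pow_left_inj₀ (by positivity) (by positivity) two_ne_zero).1 ?_
      rw [← g]
      ring
    have R0 : 0 ≤ w (ρ : L) := apply_nonneg _ _
    have pt := fun (a : Fin 3) (z : 𝓞 F) (hz : z ∈ b) => dis3_pt w (σ a) t1 hz
    have a1 := dis3_minor w R0 (pt 1 u hu) (pt 2 u hu) (pt 1 u' hu') (pt 2 u' hu')
    have a2 := dis3_minor w R0 (pt 2 u hu) (pt 0 u hu) (pt 2 u' hu') (pt 0 u' hu')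
    have a0 : w (ρ : L) ^ 2 * m0 ^ N ≤
        (nq w ^ k)⁻¹ ^ N * (w (σ 0 δ) ^ j * w (σ 1 δ) ^ j) := hC
    have a3 := dis3_dvd w d2
    rw [Nat.cast_mul, Nat.cast_pow, Nat.cast_pow, Nat.cast_pow, map_mul, map_pow, map_pow, map_pow,
      hA', dis3_abs, hn, map_mul, map_mul, mul_pow, mul_pow] at a3
    have p0 : ∀ a : Fin 3, 0 < w (σ a δ) ^ j := fun a =>
      pow_pos (FinitePlace.pos_iff.2 (ne a δ δ0)) j
    set B0 := w (σ 0 δ) ^ j
    set B1 := w (σ 1 δ) ^ j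
    set B2 := w (σ 2 δ) ^ j
    have q0 : 0 < B0 := p0 0
    have q1 : 0 < B1 := p0 1
    have q2 : 0 < B2 := p0 2
    have a4 : w (ρ : L) ^ 12 * w (I : L) ^ N * (B0 * B1 * B2) ^ 2 ≤
        (nq w ^ k)⁻¹ ^ N * (B0 * B1 * B2) ^ 2 := by
      calc _ = w (ρ : L) ^ 6 * w (I : L) ^ N * (w (ρ : L) ^ 3 * (B0 * B1 * B2)) ^ 2 := by ring
        _ ≤ w (ρ : L) ^ 6 * w (I : L) ^ N * (w (Nb : L) ^ N) ^ 2 := by gcongr
        _ = w (ρ : L) ^ 6 * (w (I : L) * w (Nb : L) ^ 2) ^ N := by ring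
        _ = w (ρ : L) ^ 2 * m0 ^ N * (w (ρ : L) ^ 2 * m1 ^ N) * (w (ρ : L) ^ 2 * m2 ^ N) := by
          rw [g1]; ring
        _ ≤ (nq w ^ k)⁻¹ ^ N * (B0 * B1) * (B1 * B2) * (B2 * B0) := by gcongr
        _ = _ := by ring
    have a5 := le_of_mul_le_mul_right a4 (by positivity)
    rw [wI, wR, inv_pow, inv_pow, inv_pow, ← mul_inv, inv_le_inv₀ (by positivity) (by positivity),
      ← pow_mul, ← pow_mul, ← pow_mul, ← pow_add,
      pow_le_pow_iff_right₀ (by linarith : 1 < nq w)] at a5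
    have a6 : k ≤ s := by
      by_contra hlt
      have : (s + 1) * N ≤ k * N := Nat.mul_le_mul_right _ (by omega)
      rw [add_mul] at this
      omega
    refine Nat.le_of_dvd (Int.natAbs_pos.2 I0) ?_
    rw [f2]
    exact (pow_dvd_pow p a6).mul_right _
  have g := congrArg (fun z => ‖φ z‖) hI
  simp only [map_mul, map_pow, map_intCast, map_natCast, norm_mul, norm_pow, Complex.norm_intCast,
    Complex.norm_natCast] at g
  set X : Fin 3 → ℝ := fun a => ‖φ (σ a δ)‖ ^ ((j : ℝ) / N) with hX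
  have X0 : ∀ a, 0 ≤ X a := fun a => by positivity
  have mn' : ∀ a : Fin 3, ‖φ (σ a u * σ (a + 1) u' - σ (a + 1) u * σ a u')‖ ≤
      r * (X a * X (a + 1)) := mn
  have hP : X 0 * X 1 * X 2 ≤ Real.exp (3 * (Real.log ρ / N)) * Nb := by
    have c1 : X 0 * X 1 * X 2 = (A : ℝ) ^ ((j : ℝ) / N) := by
      simp only [hX]
      rw [← Real.mul_rpow (norm_nonneg _) (norm_nonneg _),
        ← Real.mul_rpow (by positivity) (norm_nonneg _), ← norm_mul, ← norm_mul, ← map_mul,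
        ← map_mul, ← hn, map_intCast, Complex.norm_intCast, hA', Nat.cast_natAbs, Int.cast_abs]
    have c2 : (A : ℝ) ^ j ≤ (ρ : ℝ) ^ 3 * (Nb : ℝ) ^ N := by
      exact_mod_cast Nat.le_of_dvd (by positivity) d1
    have hN0 : (N : ℝ) ≠ 0 := by positivity
    have hρ0 : (0 : ℝ) < ρ := by exact_mod_cast r1
    rw [c1]
    refine le_of_pow_le_pow_left₀ (n := N) (by omega) (by positivity) ?_
    rw [← Real.rpow_natCast, ← Real.rpow_mul (by positivity), div_mul_cancel₀ _ hN0,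
      Real.rpow_natCast, mul_pow, ← Real.exp_nat_mul,
      show (N : ℝ) * (3 * (Real.log ρ / N)) = (3 : ℕ) * Real.log ρ by push_cast; field_simp,
      Real.exp_nat_mul, Real.exp_log hρ0]
    exact c2
  have hE : Real.exp (3 * (Real.log ρ / N)) ^ 2 ≤ Real.exp Q.card := by
    rw [← Real.exp_nat_mul]
    refine Real.exp_le_exp.2 ?_
    have : (0 : ℝ) ≤ Q.card := Nat.cast_nonneg _
    push_cast
    linarith
  have g1 : |(I : ℝ)| * √|(NumberField.discr F : ℝ)| * (Nb : ℝ) ^ 2 =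
      ‖φ (σ 0 u * σ 1 u' - σ 1 u * σ 0 u')‖ * ‖φ (σ 1 u * σ 2 u' - σ 2 u * σ 1 u')‖ *
        ‖φ (σ 2 u * σ 0 u' - σ 0 u * σ 2 u')‖ := by
    refine (pow_left_inj₀ (by positivity) (by positivity) two_ne_zero).1 ?_
    rw [← g, mul_pow, mul_pow, Real.sq_sqrt (abs_nonneg _)]
    ring
  have hk' : (p : ℝ) ^ k ≤ |(I : ℝ)| := by
    rw [← Int.cast_abs, ← Nat.cast_natAbs]
    exact_mod_cast hk
  have Nb1 : (0 : ℝ) < (Nb : ℝ) ^ 2 := by positivity
  refine le_of_mul_le_mul_right ?_ Nb1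
  have := X0 0
  have := X0 1
  have := X0 2
  calc _ ≤ |(I : ℝ)| * √|(NumberField.discr F : ℝ)| * (Nb : ℝ) ^ 2 := by gcongr
    _ ≤ r * (X 0 * X 1) * (r * (X 1 * X 2)) * (r * (X 2 * X 0)) := by
      rw [g1]
      gcongr
      · exact mn' 0
      · exact mn' 1
      · exact mn' 2
    _ = r ^ 3 * (X 0 * X 1 * X 2) ^ 2 := by ring
    _ ≤ r ^ 3 * (Real.exp (3 * (Real.log ρ / N)) * Nb) ^ 2 := by gcongr
    _ = Real.exp (3 * (Real.log ρ / N)) ^ 2 * r ^ 3 * (Nb : ℝ) ^ 2 := by ring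
    _ ≤ _ := by gcongr

theorem coord_row : COORD_s := by
  intro F L _ _ _ _ hn b σ hb
  classical
  have e : Free.ChooseBasisIndex ℤ (𝓞 F) ≃ Fin 3 :=
    Fintype.equivFinOfCardEq (by rw [← finrank_eq_card_basis (integralBasis F), hn])
  let γ : Basis (Fin 3) ℤ b := Ideal.selfBasis ((RingOfIntegers.basis F).reindex e) b hb
  let E : (Fin 3 → ℤ) →ₗ[ℤ] 𝓞 F := (b.restrictScalars ℤ).subtype ∘ₗ γ.equivFun.symm.toLinearMap
  have hE : ∀ c, E c = ((γ.equivFun.symm c : b) : 𝓞 F) := fun c => rfl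
  have hinj : Function.Injective E := fun c c' h =>
    γ.equivFun.symm.injective (Subtype.ext h)
  have hsum : ∀ (c : Fin 3 → ℤ) (s : F →+* L), s (E c : F) =
      c 0 * s ((γ 0 : 𝓞 F) : F) + c 1 * s ((γ 1 : 𝓞 F) : F) + c 2 * s ((γ 2 : 𝓞 F) : F) := by
    intro c s
    rw [hE, Basis.equivFun_symm_apply, Fin.sum_univ_three]
    simp [RingOfIntegers.coe_eq_algebraMap]
  have hsm : ∀ (n : ℤ) (c : Fin 3 → ℤ), (E (n • c) : F) = n * (E c : F) := by
    intro n c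
    rw [map_smul]
    simp [RingOfIntegers.coe_eq_algebraMap]
  let mm : (Fin 3 → L) → (Fin 3 → L) → ((Fin 3 → ℤ) →+ L) := fun s t =>
    { toFun := fun ξ => ξ 0 * (s 1 * t 2 - s 2 * t 1) + ξ 1 * (s 2 * t 0 - s 0 * t 2) +
        ξ 2 * (s 0 * t 1 - s 1 * t 0)
      map_zero' := by simp
      map_add' := fun x y => by simp only [Pi.add_apply, Int.cast_add]; ring }
  refine ⟨E, fun a => mm (fun i => σ a ((γ i : 𝓞 F) : F)) (fun i => σ (a + 1) ((γ i : 𝓞 F) : F)),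
    hinj, fun c => (γ.equivFun.symm c).2, fun u hu => ⟨γ.equivFun ⟨u, hu⟩, by
      rw [hE, LinearEquiv.symm_apply_apply]⟩, fun c c' a => ?_, fun c c' => ⟨fun h => ⟨?_, ?_⟩, ?_⟩⟩
  · simp only [hsum, mm, AddMonoidHom.coe_mk, ZeroHom.coe_mk, cross_apply, Matrix.cons_val,
      Int.cast_sub, Int.cast_mul]
    ring
  · intro h0
    rw [hinj (h0.trans (map_zero E).symm)] at h
    exact h (map_zero _)
  · intro q hq
    have h1 : (q.den : ℤ) • c = q.num • c' := by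
      refine hinj (RingOfIntegers.ext ?_)
      rw [hsm, hsm, hq, ← mul_assoc, Int.cast_natCast, ← Rat.cast_natCast, ← Rat.cast_mul,
        Rat.den_mul_eq_num, Rat.cast_intCast]
    have h2 : (q.den : ℤ) • crossProduct c c' = 0 := by
      rw [← LinearMap.smul_apply, ← map_smul, h1, map_smul, LinearMap.smul_apply, cross_self,
        smul_zero]
    exact h ((smul_eq_zero.1 h2).resolve_left (by exact_mod_cast q.den_nz))
  · rintro ⟨h0, hq⟩ h
    obtain ⟨i, hi⟩ : ∃ i, c' i ≠ 0 := by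
      by_contra hh
      push Not at hh
      exact h0 (by rw [show c' = 0 from funext hh, map_zero])
    have a0 := congrFun h 0
    have a1 := congrFun h 1
    have a2 := congrFun h 2
    simp only [cross_apply, Matrix.cons_val, Pi.zero_apply] at a0 a1 a2
    have h1 : c' i • c = c i • c' := by
      funext l
      fin_cases i <;> fin_cases l <;> simp <;> linarith
    have h2 := congrArg (fun z => (E z : F)) h1
    simp only [hsm] at h2
    have hi' : ((c' i : ℤ) : F) ≠ 0 := Int.cast_ne_zero.2 hi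
    refine hq ((c i : ℚ) / (c' i : ℚ)) ?_
    push_cast
    field_simp
    linear_combination h2

theorem many_nrm {L : Type} [Field L] (φ : L →+* ℂ) (m : Fin 3 → ((Fin 3 → ℤ) →+ L))
    (Y : Fin 3 → ℝ) (hY : ∀ a, 0 < Y a) : ∃ ν : (Fin 3 → ℤ) → ℝ, Nrm ν ∧
    (∀ ξ a, ‖φ (m a ξ)‖ ≤ ν ξ * Y a) ∧
      ∀ ξ (A : ℝ), 0 ≤ A → (∀ a, ‖φ (m a ξ)‖ ≤ A * Y a) → ν ξ ≤ A := by
  let f : (Fin 3 → ℤ) → (Fin 3 → ℂ) := fun ξ a => φ (m a ξ) / (Y a : ℂ)
  have nf : ∀ ξ a, ‖f ξ a‖ = ‖φ (m a ξ)‖ / Y a := fun ξ a => by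
    simp only [f, norm_div, Complex.norm_real, Real.norm_eq_abs, abs_of_pos (hY a)]
  refine ⟨fun ξ => ‖f ξ‖, ⟨fun ξ => norm_nonneg _, fun j ξ => ?_, fun ξ ξ' => ?_⟩,
    fun ξ a => ?_, fun ξ A A0 h => ?_⟩
  · have e : f (j • ξ) = (j : ℂ) • f ξ := by
      funext a
      simp only [f, Pi.smul_apply, smul_eq_mul]
      rw [map_zsmul, zsmul_eq_mul, map_mul, map_intCast, mul_div_assoc]
    show ‖f (j • ξ)‖ = _ * ‖f ξ‖
    rw [e, norm_smul, Complex.norm_intCast]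
  · have e : f (ξ + ξ') = f ξ + f ξ' := by
      funext a
      simp only [f, Pi.add_apply, map_add, add_div]
    show ‖f (ξ + ξ')‖ ≤ ‖f ξ‖ + ‖f ξ'‖
    rw [e]
    exact norm_add_le _ _
  · have h := norm_le_pi_norm (f ξ) a
    rwa [nf, div_le_iff₀ (hY a)] at h
  · refine (pi_norm_le_iff_of_nonneg A0).2 fun a => ?_
    rw [nf, div_le_iff₀ (hY a)]
    exact h a

theorem many_sub {L : Type} [Field L] [NumberField L] (w : FinitePlace L)
    (m : (Fin 3 → ℤ) →+ L) (R C : ℝ) (N : ℕ) (hN : 1 ≤ N) (hR : 0 ≤ R) (hC : 0 ≤ C) :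
    ∃ M : AddSubgroup (Fin 3 → ℤ), ∀ ξ, ξ ∈ M ↔ R * w (m ξ) ^ N ≤ C := by
  refine ⟨⟨⟨⟨{ξ | R * w (m ξ) ^ N ≤ C}, ?_⟩, ?_⟩, ?_⟩, fun _ => Iff.rfl⟩
  · intro a b ha hb
    simp only [Set.mem_ofPred_eq, map_add] at ha hb ⊢
    rcases le_max_iff.1 (w.add_le (m a) (m b)) with h | h
    · exact le_trans (by gcongr) ha
    · exact le_trans (by gcongr) hb
  · show R * w (m 0) ^ N ≤ C
    rw [map_zero, map_zero, zero_pow (by omega), mul_zero]
    exact hC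
  · intro a ha
    show R * w (m (-a)) ^ N ≤ C
    rw [map_neg, map_neg_eq_map]
    exact ha

theorem many_col {L : Type} [Field L] [NumberField L] (w : FinitePlace L) {x y x' y' : L}
    {R A B z : ℝ} {N : ℕ} (hR : 0 ≤ R) (hz : 0 ≤ z) (y0 : y ≠ 0) (x0' : x' ≠ 0)
    (h2 : R * w y ^ N ≤ B) (h3 : R * w x' ^ N ≤ A) (hC : w (x / y / (x' / y') - 1) ≤ z) :
    R ^ 2 * w (x * y' - y * x') ^ N ≤ z ^ N * (A * B) := by
  have c2 : x * y' - y * x' = (x / y / (x' / y') - 1) * (x' * y) := by field_simp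
  have c1 : w (x * y' - y * x') ≤ z * (w x' * w y) := by
    rw [c2, map_mul, map_mul]
    exact mul_le_mul_of_nonneg_right hC (by positivity)
  have a0 : 0 ≤ A := le_trans (by positivity) h3
  calc _ ≤ R ^ 2 * (z * (w x' * w y)) ^ N := by gcongr
    _ = z ^ N * (R * w x' ^ N * (R * w y ^ N)) := by ring
    _ ≤ _ := mul_le_mul_of_nonneg_left (mul_le_mul h3 h2 (by positivity) a0) (by positivity)

theorem many_box {L : Type} [Field L] (φ : L →+* ℂ) {x y x' y' : L} {r A B : ℝ} (hr : 0 ≤ r)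
    (hA : 0 ≤ A) (hB : 0 ≤ B) (h1 : ‖φ x‖ ≤ r * A) (h2 : ‖φ y‖ ≤ r * B) (h3 : ‖φ x'‖ ≤ r * A)
    (h4 : ‖φ y'‖ ≤ r * B) : ‖φ (x * y' - y * x')‖ ≤ 2 * r ^ 2 * (A * B) := by
  rw [map_sub, map_mul, map_mul]
  refine (norm_sub_le _ _).trans ?_
  rw [norm_mul, norm_mul]
  have k1 := mul_le_mul h1 h4 (norm_nonneg _) (mul_nonneg hr hA)
  have k2 := mul_le_mul h2 h3 (norm_nonneg _) (mul_nonneg hr hB)
  nlinarith

theorem many_row (hCROSS : CROSS_s) (hPLANE : PLANE_s) (hWMIN : WMIN_s) (hCOORD : COORD_s) : MANY_s := by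
  classical
  intro F L _ _ _ _ hF w p k N j Q δ b σ r S hp hw hD hσ hQ hN δ0 hr h2 hS hq
  obtain ⟨E, m, -, E2, E3, E4, E5⟩ := hCOORD F L hF b σ h2.1
  obtain ⟨φ⟩ : Nonempty (L →+* ℂ) := inferInstance
  have ne : ∀ (a : Fin 3) (z : 𝓞 F), z ≠ 0 → σ a z ≠ 0 := fun a z hz =>
    (map_ne_zero _).2 (by exact_mod_cast hz)
  have X0 : ∀ a : Fin 3, 0 < ‖φ (σ a δ)‖ ^ ((j : ℝ) / N) := fun a =>
    Real.rpow_pos_of_pos (norm_pos_iff.2 ((map_ne_zero φ).2 (ne a δ δ0))) _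
  obtain ⟨ν, n1, n2, n3⟩ := many_nrm φ m
    (fun a => ‖φ (σ a δ)‖ ^ ((j : ℝ) / N) * ‖φ (σ (a + 1) δ)‖ ^ ((j : ℝ) / N))
    fun a => mul_pos (X0 _) (X0 _)
  have W2 : 2 ≤ nq w := (fVAL L w).1
  have W0 : 0 < nq w := by linarith
  choose M hM using fun a : ℕ => many_sub w (m 0) (w (rho Q N : L) ^ 2)
    ((nq w ^ (k - a))⁻¹ ^ N * (w (σ 0 δ) ^ j * w (σ 1 δ) ^ j)) N hN (by positivity)
    (by positivity)
  have R0 : 0 ≤ w (rho Q N : L) := apply_nonneg _ _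
  have pt := fun (a : Fin 3) (z : 𝓞 F) (hz : z ∈ b) => dis3_pt w (σ a) h2.2.1 hz
  have E0 : ∀ c c', m 0 (crossProduct c c') =
      σ 0 (E c) * σ 1 (E c') - σ 1 (E c) * σ 0 (E c') := fun c c' => by
    rw [E4, zero_add]
  have top : ∀ ξ, w (rho Q N : L) ^ 2 * w (m 0 ξ) ^ N ≤ w (σ 0 δ) ^ j * w (σ 1 δ) ^ j :=
    fun ξ => by
      obtain ⟨c, c', rfl⟩ := hCROSS.1 ξ
      rw [E0]
      exact dis3_minor w R0 (pt 0 _ (E2 c)) (pt 1 _ (E2 c)) (pt 0 _ (E2 c')) (pt 1 _ (E2 c'))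
  have desc : ∀ (g : ℕ) ξ, 1 ≤ g → (g : ℤ) • ξ ∈ M 0 → ∃ a ≤ k, p ^ a ∣ g ∧ ξ ∈ M a := by
    intro g ξ hg h
    obtain ⟨s, n, f1, f2⟩ := Nat.exists_eq_pow_mul_and_not_dvd (by omega : g ≠ 0) p hp.ne_one
    rcases le_total k s with hs | hs
    · refine ⟨k, le_rfl, ?_, (hM k ξ).2 ?_⟩
      · rw [f2]
        exact (pow_dvd_pow p hs).mul_right _
      · rw [Nat.sub_self, pow_zero, inv_one, one_pow, one_mul]
        exact top ξ
    · refine ⟨s, hs, ⟨n, f2⟩, (hM s ξ).2 ?_⟩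
      have wg : w (g : L) = (nq w ^ s)⁻¹ := by
        rw [f2, Nat.cast_mul, Nat.cast_pow, map_mul, map_pow, dis3_unit w hp hw f1, hw, mul_one,
          inv_pow]
      have e : (nq w ^ k)⁻¹ = (nq w ^ s)⁻¹ * (nq w ^ (k - s))⁻¹ := by
        rw [← mul_inv, ← pow_add, Nat.add_sub_cancel' hs]
      rw [hM, map_zsmul, zsmul_eq_mul, Int.cast_natCast, map_mul, wg, Nat.sub_zero, e] at h
      have q0 : 0 < (nq w ^ s)⁻¹ := by positivity
      generalize (nq w ^ s)⁻¹ = z at h q0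
      generalize (nq w ^ (k - s))⁻¹ = z' at h ⊢
      refine le_of_mul_le_mul_left ?_ (pow_pos q0 N)
      calc _ = w (rho Q N : L) ^ 2 * (z * w (m 0 ξ)) ^ N := by ring
        _ ≤ _ := h
        _ = _ := by ring
  have D0 : 0 < √|(NumberField.discr F : ℝ)| :=
    Real.sqrt_pos.2 (abs_pos.2 (by exact_mod_cast NumberField.discr_ne_zero F))
  have p0 : (0 : ℝ) < p := by exact_mod_cast hp.pos
  have e0 := Real.exp_pos (Q.card : ℝ)
  have mn : ∀ a ≤ k, ∀ ξ ∈ M a, ξ ≠ 0 → (p : ℝ) ^ k * √|(NumberField.discr F : ℝ)| /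
      Real.exp Q.card ≤ (p : ℝ) ^ a * ν ξ ^ 3 := by
    intro a ha ξ hξ ξ0
    obtain ⟨c, c', rfl⟩ := hCROSS.1 ξ
    obtain ⟨u0, uq⟩ := (E5 c c').1 ξ0
    have h1 := (hM a _).1 hξ
    rw [E0] at h1
    have h := hWMIN F L hF w φ p (k - a) N j Q δ (E c) (E c') b σ (ν (crossProduct c c')) hp hw hD
      hσ hQ hN δ0 (n1.1 _) h2 (E2 c) (E2 c') u0 uq h1 fun i => by
        rw [← E4]
        exact n2 _ i
    rw [div_le_iff₀ e0]
    calc _ = (p : ℝ) ^ a * ((p : ℝ) ^ (k - a) * √|(NumberField.discr F : ℝ)|) := by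
          rw [← mul_assoc, ← pow_add, Nat.add_sub_cancel' ha]
      _ ≤ (p : ℝ) ^ a * (Real.exp Q.card * ν (crossProduct c c') ^ 3) := by gcongr
      _ = _ := by ring
  choose! cf hcf using E3
  have hc : ∀ u ∈ S, E (cf u) = u := fun u hu => hcf u (hS u hu).1
  have inj : Set.InjOn cf S := fun u hu u' hu' h => by
    rw [← hc u hu, ← hc u' hu', h]
  let bad : 𝓞 F → Prop := fun u =>
    ∃ u' ∈ S, u' ≠ u ∧ Cw w k (fun a => σ a u) (fun a => σ a u')
  have key := hPLANE ν n1 p k M _ (2 * r ^ 2) (S.image cf) ((S.filter bad).image cf) hp.one_le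
    (by positivity) (by positivity) desc mn ?_ (image_subset_image (filter_subset _ _)) ?_
  · refine ⟨S.filter fun u => ¬bad u, filter_subset _ _, ?_, fun u hu u' hu' h => ?_⟩
    · rw [card_image_of_injOn (inj.mono (coe_subset.2 (filter_subset _ _))), ← mul_div_assoc,
        div_le_iff₀ e0] at key
      have c1 : (S.card : ℝ) - (S.filter fun u => ¬bad u).card = (S.filter bad).card := by
        rw [← card_filter_add_card_filter_not (s := S) bad]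
        push_cast
        ring
      rw [c1]
      refine key.trans (le_of_eq ?_)
      ring
    · by_contra hne
      exact (mem_filter.1 hu).2 ⟨u', (mem_filter.1 hu').1, Ne.symm hne, h⟩
  · intro c hc1 c' hc2 hne
    obtain ⟨u, hu, rfl⟩ := mem_image.1 hc1
    obtain ⟨u', hu', rfl⟩ := mem_image.1 hc2
    have hne' : u ≠ u' := fun h => hne (by rw [h])
    refine ⟨(E5 _ _).2 ?_, n3 _ _ (by positivity) fun a => ?_⟩
    · rw [hc u hu, hc u' hu']
      exact ⟨(hS u' hu').2.1, hq u hu u' hu' hne'⟩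
    · rw [E4, hc u hu, hc u' hu']
      exact many_box φ hr.le (X0 a).le (X0 (a + 1)).le ((hS u hu).2.2 (φ.comp (σ a)))
        ((hS u hu).2.2 (φ.comp (σ (a + 1)))) ((hS u' hu').2.2 (φ.comp (σ a)))
        ((hS u' hu').2.2 (φ.comp (σ (a + 1))))
  · intro c hc1
    obtain ⟨u, hu, rfl⟩ := mem_image.1 hc1
    obtain ⟨hu, u', hu', hne, hC⟩ := mem_filter.1 hu
    refine ⟨cf u', mem_image_of_mem _ hu', fun h => hne (inj hu' hu h), (hM 0 _).2 ?_⟩
    rw [E0, hc u hu, hc u' hu', Nat.sub_zero]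
    exact many_col w R0 (by positivity) (ne 1 u (hS u hu).2.1) (ne 0 u' (hS u' hu').2.1)
      (pt 1 u (hS u hu).1) (pt 0 u' (hS u' hu').1) hC

theorem famx_row (hMANY : MANY_s) : FAMX_s := by
  classical
  obtain ⟨C, -, hC⟩ := gDICH 1 one_pos
  intro L _ _ x y t1 t2 t3 h δ' p w T hB N c I k l r r0 hN hc hI hr hr0 hl hb hrl hsm hb2 hb3
  obtain ⟨-, F, _, _, δ, σ, hf, hd, hdvd, h01, hinj, -, -, hA⟩ := gEMB L x y t1 t2 t3 h
  obtain ⟨-, -, -, -, -, -, -, -, -, -, -, -, -, h2, hp, -⟩ := fALG L x y t1 t2 t3 h.toCub0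
  have hn0 : (6 * (x ^ 3 - y ^ 2)).natAbs ≠ 0 :=
    Int.natAbs_ne_zero.2 (mul_ne_zero (by norm_num) h.ne)
  have δ0 : δ ≠ 0 := by
    rintro rfl
    exact hn0 (by exact_mod_cast zero_dvd_iff.1 hdvd)
  have hJ : ((range I).image fun i => c * i).Nonempty :=
    (nonempty_range_iff.2 (by omega)).image _
  have hDF : |(NumberField.discr F : ℝ)| = DF t1 := by
    rw [hd]
    rfl
  rcases hC F (hf ▸ h.n3) δ _ N l (Qs x y) _ r r0 hn0 hdvd subset_rfl hp hN ⟨2, h2⟩ hJ hr hr0 hl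
    (by rw [hf, hDF]; exact hb) hrl with ⟨h1, -⟩ | ⟨J', hs, i0, hi0, hcard, hP⟩
  · rw [hf] at h1
    exact absurd hsm (not_lt.2 h1)
  have hw : w (p : L) = (nq w)⁻¹ := fINER L h.gal w p hB.pr hB.ab hB.tri
  have hpd : ¬(p : ℤ) ∣ NumberField.discr F := by
    obtain ⟨n, hn1, hn2⟩ :=
      fBE L x y t1 t2 t3 h p w T hB.pr hB.five hB.ab hB.cop hB.one hB.val hB.tri
    obtain ⟨a, hSq, -, -, h3⟩ := fSQF x y h.prim h.ne
    obtain ⟨-, b, hb1, hb2⟩ := h3 p T n hB.pr hB.one hB.cop hn1 hn2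
    intro hh
    rw [hd] at hh
    have hpp : Prime (p : ℤ) := Nat.prime_iff_prime_int.1 hB.pr
    rcases hpp.dvd_or_dvd (hh.trans (gPD L x y t1 t2 t3 h a b hSq hb1)) with e | e
    · have e1 : p ∣ 2 ^ 4 * 3 ^ 3 := by exact_mod_cast e
      have h5 := hB.five
      rcases (Nat.Prime.dvd_mul hB.pr).1 e1 with e2 | e2
      · have := Nat.le_of_dvd (by norm_num) (hB.pr.dvd_of_dvd_pow e2)
        omega
      · have := Nat.le_of_dvd (by norm_num) (hB.pr.dvd_of_dvd_pow e2)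
        omega
    · exact hb2 e
  refine famw_sel c I hc _ _ J' i0 hs hi0 hcard fun i hi => ⟨(hP i hi).1, ?_⟩
  obtain ⟨b, hT, S, hS1, hS2, hS3⟩ := (hP i hi).2
  have key : ∃ S' ⊆ S, l / 2 ≤ S'.card ∧ ∀ u ∈ S', ∀ u' ∈ S',
      Cw w k (fun a => σ a (u : F)) (fun a => σ a (u' : F)) → u = u' := by
    have a2 := h.n2
    have a3 := h.n3
    rcases (by omega : dg t1 = 2 ∨ dg t1 = 3) with e | e
    · refine ⟨S, subset_rfl, (Nat.div_le_self _ _).trans hS1, fun u hu u' hu' hcw => ?_⟩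
      by_contra hne
      obtain ⟨u1, u2, u3⟩ := hS2 u hu
      obtain ⟨v1, v2, v3⟩ := hS2 u' hu'
      have hle := gDIS2 F L (hf.trans e) w p k N (i - i0) (Qs x y) δ u u' b σ r hB.pr hw hpd h01
        (fun h3 => absurd h3 (by norm_num)) hp hN δ0 hr hT u1 v1 u2 v2 u3 v3
        (hS3 u hu u' hu' hne) hcw
      rw [hDF] at hle
      exact absurd (hb2 e) (not_lt.2 hle)
    · obtain ⟨S', hs', hc', hi'⟩ := hMANY F L (hf.trans e) w p k N (i - i0) (Qs x y) δ b σ r S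
        hB.pr hw hpd (hinj e) hp hN δ0 hr hT hS2 hS3
      refine ⟨S', hs', ?_, hi'⟩
      rw [hDF] at hc'
      have hpos : 0 < (p : ℝ) ^ k * √(DF t1) := by
        refine mul_pos (pow_pos (by exact_mod_cast hB.pr.pos) _) (Real.sqrt_pos.2 ?_)
        rw [← hDF]
        exact abs_pos.2 (by exact_mod_cast NumberField.discr_ne_zero F)
      have h3 := hb3 e
      have h4 : 2 * ((S.card : ℝ) - S'.card) ≤ l := by
        refine le_of_mul_le_mul_right ?_ hpos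
        linarith
      have h5 : (l : ℝ) ≤ S.card := by exact_mod_cast hS1
      have h6 : (l : ℝ) ≤ 2 * S'.card := by linarith
      have h7 : l ≤ 2 * S'.card := by exact_mod_cast h6
      omega
  obtain ⟨S', hs', hc', hi'⟩ := key
  refine ⟨S'.image fun u : 𝓞 F => fun a => σ a (u : F), ?_, ?_, ?_⟩
  · rw [card_image_of_injective]
    · exact hc'
    · intro u u' e
      exact RingOfIntegers.coe_injective ((σ 0).injective (congrFun e 0))
  · intro Y hY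
    obtain ⟨u, hu, rfl⟩ := mem_image.1 hY
    obtain ⟨u1, u2, u3⟩ := hS2 u (hs' hu)
    exact hA N _ r u (famw_ap δ0 hT u1 u2 u3)
  · intro Y hY Y' hY' hcw
    obtain ⟨u, hu, rfl⟩ := mem_image.1 hY
    obtain ⟨u', hu', rfl⟩ := mem_image.1 hY'
    rw [hi' u hu u' hu' hcw]

end Pool.Agent.MP_2a5a28_nt.H1D
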