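import Pool.Agent.MP_2a5a28_nt.H1D.Defs

set_option autoImplicit false

namespace Pool.Agent.MP_2a5a28_nt.H1D

open Finset NumberField Module
open H15Z H63Y

theorem ari_row : ARI_s := by
  intro ε lam hε hlam
  obtain ⟨k, hk⟩ : ∃ k : ℕ, 4 * (lam + 3) ≤ k := ⟨_, Nat.le_ceil _⟩
  have hk0 : (0 : ℝ) < k := by linarith
  have hk1 : 1 ≤ k := Nat.cast_pos.1 hk0
  obtain ⟨σ, hσ0, hσ1, hσ2⟩ : ∃ σ : ℝ, 0 < σ ∧ σ ≤ 1 / 100 ∧ 36 * σ * k ≤ ε := by
    refine ⟨min (1 / 100) (ε / (36 * k)), lt_min (by norm_num) (by positivity), min_le_left _ _, ?_⟩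
    have h := (le_div_iff₀ (by positivity : (0 : ℝ) < 36 * k)).1
      (min_le_right (1 / 100) (ε / (36 * k)))
    linarith
  obtain ⟨τ, hτ⟩ : ∃ τ : ℝ, τ = 18 * σ * k := ⟨_, rfl⟩
  have hτ0 : 0 < τ := by rw [hτ]; positivity
  obtain ⟨L, hL0, eL⟩ : ∃ L : ℝ, 0 ≤ L ∧ Real.exp L = 2592 * (k + 1) :=
    ⟨Real.log (2592 * (k + 1)), Real.log_nonneg (by linarith), Real.exp_log (by positivity)⟩
  have b1 : 0 ≤ 4 / ε := by positivity
  have b2 : 0 ≤ (L + 3) / τ := by positivity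
  refine ⟨σ, 4 + 4 / ε + (L + 3) / τ, k, hσ0, hσ1, by linarith, hk1,
    fun n p D q M hn2 hn3 hp hD hq hM hDM hpM hml hc => ?_⟩
  have hp0 : (0 : ℝ) < p := by exact_mod_cast (by omega : 0 < p)
  have hD0 : 0 < D := by linarith
  have hM0 : 0 < M := by linarith
  have hn0 : (0 : ℝ) < n := by exact_mod_cast (by omega : 0 < n)
  have h432 : Real.log 432 ≤ 7 := by
    rw [Real.log_le_iff_le_exp (by norm_num)]
    have h := Real.exp_one_gt_d9
    calc (432 : ℝ) ≤ 2.7 ^ 7 := by norm_num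
      _ ≤ Real.exp 1 ^ 7 := by gcongr; linarith
      _ = Real.exp 7 := by rw [← Real.exp_nat_mul]; norm_num
  have hlog : Real.log D ≤ 7 + Real.log M := by
    have h := Real.log_le_log hD0 hDM
    rw [Real.log_mul (by norm_num) hM0.ne'] at h
    linarith
  have ham : Real.log p ≤ Real.log M := Real.log_le_log hp0 hpM
  have hd0 : 0 ≤ Real.log D := Real.log_nonneg hD
  have eD : √D = Real.exp (Real.log D / 2) := by
    rw [Real.exp_half, Real.exp_log hD0]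
  have eP : (p : ℝ) ^ k = Real.exp (k * Real.log p) := by
    rw [Real.exp_nat_mul, Real.exp_log hp0]
  have eM : M ^ ε = Real.exp (Real.log M * ε) := Real.rpow_def_of_pos hM0 _
  rw [eD, eM, eP]
  generalize Real.log D = d at *
  generalize Real.log M = m at *
  generalize Real.log p = a at *
  have c1 : 4 + 4 * q ≤ a := by nlinarith [mul_nonneg b1 hq, mul_nonneg b2 hq]
  have ha : 0 < a := by linarith
  have c2 : 4 * q ≤ a * ε := by
    have h1 : 4 / ε * q ≤ a := by nlinarith [mul_nonneg b2 hq]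
    rw [div_mul_eq_mul_div, div_le_iff₀ hε] at h1
    exact h1
  have c3 : L + 3 + q ≤ τ * a := by
    have h1 : (L + 3) / τ * (1 + q) ≤ a := by nlinarith [mul_nonneg b1 hq]
    rw [div_mul_eq_mul_div, div_le_iff₀ hτ0] at h1
    nlinarith [mul_nonneg hL0 hq]
  have c4 : 2 * (τ * a) ≤ a * ε := by
    have h1 : 2 * τ ≤ ε := by rw [hτ]; linarith
    nlinarith
  have c5 : a * ε ≤ m * ε := by gcongr
  have hP : 2 * (lam * a) + 6 * a ≤ (1 - 18 * σ) * (k * a) := by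
    have h1 : 4 * (lam + 3) * a ≤ k * a := by gcongr
    have h2 : 1 / 2 * (k * a) ≤ (1 - 18 * σ) * (k * a) := by gcongr; linarith
    linarith
  have hla : 0 ≤ lam * a := by positivity
  obtain ⟨u, hu⟩ : ∃ u, u = (1 - 18 * σ) * (k * a) := ⟨_, rfl⟩
  have huP : u = k * a - τ * a := by rw [hu, hτ]; ring
  rw [← hu] at hP ⊢
  obtain ⟨y, hy⟩ : ∃ y, y = Real.exp (u - 2 * q - d / 2) := ⟨_, rfl⟩
  have hy2 : 2 ≤ y := by
    have := Real.add_one_le_exp (u - 2 * q - d / 2)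
    linarith
  obtain ⟨l, hl, hl1, hl2⟩ := Nat.exists_prime_lt_and_le_two_mul ⌊y / 2⌋₊
    (Nat.floor_pos.2 (by linarith)).ne'
  have hly : (l : ℝ) ≤ y := by
    have h : (l : ℝ) ≤ 2 * (⌊y / 2⌋₊ : ℝ) := by exact_mod_cast hl2
    have := Nat.floor_le (by linarith : 0 ≤ y / 2)
    linarith
  have hyl2 : y ≤ 2 * l := by
    have h : (⌊y / 2⌋₊ : ℝ) + 1 ≤ l := by exact_mod_cast hl1
    have h' := Nat.lt_floor_add_one (y / 2)
    linarith
  have hyl : Real.exp (u - 2 * q - 1 - d / 2) ≤ l := by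
    have e : y = Real.exp (u - 2 * q - 1 - d / 2) * Real.exp 1 := by
      rw [hy, ← Real.exp_add]; congr 1; ring
    have h2 : (2 : ℝ) ≤ Real.exp 1 := by linarith [Real.add_one_le_exp 1]
    have h3 := mul_le_mul_of_nonneg_left h2 (Real.exp_pos (u - 2 * q - 1 - d / 2)).le
    linarith
  have hl0 : (0 : ℝ) < l := by exact_mod_cast hl.pos
  have hl1' : (1 : ℝ) ≤ l := by exact_mod_cast hl.pos
  have e0 : (n : ℝ) * ((u - q) / n) = u - q := mul_div_cancel₀ _ hn0.ne'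
  have er : Real.exp ((u - q) / n) ^ n = Real.exp (u - q) := by
    rw [← Real.exp_nat_mul, e0]
  refine ⟨Real.exp ((u - q) / n), Real.exp ((u - q) / n) / l, l,
    Real.one_le_exp (div_nonneg (by linarith) hn0.le), by positivity, hl, ?_, ?_, ?_, ?_,
    fun h => ?_, fun h => ?_, ?_⟩
  · rw [Real.log_exp, e0]; linarith
  · rw [er]
    calc Real.exp q * Real.exp (d / 2) * l ≤ Real.exp q * Real.exp (d / 2) * y := by gcongr
      _ = _ := by rw [hy, ← Real.exp_add, ← Real.exp_add]; congr 1; ring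
  · rw [mul_div_cancel₀ _ hl0.ne']
  · rw [div_pow, er, div_mul_eq_mul_div, div_lt_one (by positivity)]
    calc Real.exp (u - q) * Real.exp q < Real.exp (u - 2 * q - 1 - d / 2) ^ 2 := by
          rw [← Real.exp_add, ← Real.exp_nat_mul, Real.exp_lt_exp]
          push_cast
          linarith
      _ ≤ (l : ℝ) ^ 2 := by gcongr
      _ ≤ _ := pow_le_pow_right₀ hl1' hn2
  · have h8 : (8 : ℝ) < Real.exp 3 := by
      have h := Real.exp_one_gt_d9
      calc (8 : ℝ) < 2.7 ^ 3 := by norm_num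
        _ ≤ Real.exp 1 ^ 3 := by gcongr; linarith
        _ = Real.exp 3 := by rw [← Real.exp_nat_mul]; norm_num
    subst h
    rw [er]
    calc 8 * Real.exp q * Real.exp (u - q) < Real.exp 3 * Real.exp q * Real.exp (u - q) := by
          gcongr
      _ ≤ _ := by
        rw [← Real.exp_add, ← Real.exp_add, ← Real.exp_add]
        exact Real.exp_le_exp.2 (by linarith)
  · subst h
    rw [show 6 = 3 * 2 from rfl, pow_mul, er, ← eL]
    calc Real.exp L * Real.exp q * Real.exp (u - q) ^ 2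
        ≤ Real.exp (u - 2 * q - 1 - d / 2) * (Real.exp (k * a) * Real.exp (d / 2)) := by
          rw [← Real.exp_nat_mul, ← Real.exp_add, ← Real.exp_add, ← Real.exp_add, ← Real.exp_add]
          refine Real.exp_le_exp.2 ?_
          push_cast
          linarith
      _ ≤ _ := by gcongr
  · calc Real.exp (k * a) ≤ y * (Real.exp (d / 2) * Real.exp (m * ε)) := by
          rw [hy, ← Real.exp_add, ← Real.exp_add]
          exact Real.exp_le_exp.2 (by linarith)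
      _ ≤ 2 * l * (Real.exp (d / 2) * Real.exp (m * ε)) := by gcongr
      _ = _ := by ring

theorem sqf3_one {A : Finset ℕ} (h : ∀ p ∈ A, p.Prime) : (1 : ℝ) ≤ ∏ p ∈ A, (p : ℝ) := by
  rw [← Nat.cast_prod]
  exact_mod_cast Finset.prod_pos fun p hp => (h p hp).pos

theorem sqf3_val {P : Finset ℕ} (hP : ∀ p ∈ P, p.Prime) (e : ℕ → ℕ) {p k : ℕ} (hp : p ∈ P)
    (h : p ^ k ∣ ∏ q ∈ P, q ^ e q) : k ≤ e p := by
  rw [← Finset.mul_prod_erase _ _ hp] at h
  exact (Nat.pow_dvd_pow_iff_le_right (hP p hp).one_lt).1 (Nat.Coprime.dvd_of_dvd_mul_right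
    (Nat.Coprime.prod_right fun q hq => Nat.Coprime.pow _ _ ((Nat.coprime_primes (hP p hp)
      (hP q (Finset.mem_of_mem_erase hq))).2 (Finset.ne_of_mem_erase hq).symm)) h)

theorem sqf3_le {x y : ℤ} (h : x ^ 3 ≠ y ^ 2) {a W : ℕ}
    (en : (x ^ 3 - y ^ 2).natAbs = a ^ 2 * W) (hw : W ∣ sqf_NS x y) : W ≤
    (∏ p ∈ (x ^ 3 - y ^ 2).natAbs.primeFactors.filter
      (fun p : ℕ => Odd ((x ^ 3 - y ^ 2).natAbs.factorization p)), p) *
      (∏ p ∈ (Int.gcd x y).primeFactors.filter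
        (fun p : ℕ => Even ((x ^ 3 - y ^ 2).natAbs.factorization p)), p) ^ 2 := by
  have n0 : (x ^ 3 - y ^ 2).natAbs ≠ 0 := Int.natAbs_ne_zero.2 (sub_ne_zero.2 h)
  rw [sqf_NS_eq h] at hw
  rw [sqf_pf_gcd h]
  obtain ⟨n, hn⟩ : ∃ n, n = (x ^ 3 - y ^ 2).natAbs := ⟨_, rfl⟩
  rw [← hn] at n0 en hw ⊢
  have a0 : a ^ 2 ≠ 0 := left_ne_zero_of_mul (en ▸ n0)
  have W0 : W ≠ 0 := right_ne_zero_of_mul (en ▸ n0)
  have pr : ∀ p ∈ n.primeFactors, p.Prime := fun _ hp => Nat.prime_of_mem_primeFactors hp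
  have eW : W = ∏ p ∈ n.primeFactors, p ^ W.factorization p := by
    conv_lhs => rw [← Nat.prod_factorization_pow_eq_self W0]
    exact Finsupp.prod_of_support_subset _ (by
      rw [Nat.support_factorization]
      exact Nat.primeFactors_mono ⟨a ^ 2, by rw [en, mul_comm]⟩ n0) _ fun _ _ => pow_zero _
  rw [Finset.filter_filter, Finset.prod_filter, Finset.prod_filter, ← Finset.prod_pow,
    ← Finset.prod_mul_distrib, eW]
  refine Finset.prod_le_prod' fun p hp => ?_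
  have v1 := sqf3_val pr _ hp ((Nat.ordProj_dvd W p).trans hw)
  have v2 : n.factorization p = 2 * a.factorization p + W.factorization p := by
    conv_lhs => rw [en]
    rw [Nat.factorization_mul a0 W0, Finsupp.add_apply, Nat.factorization_pow,
      Finsupp.smul_apply, smul_eq_mul]
  have p0 := (pr p hp).pos
  rcases Nat.even_or_odd (n.factorization p) with he | ho
  · rw [if_neg (Nat.not_odd_iff_even.2 he), one_mul]
    obtain ⟨j, hj⟩ := id he
    by_cases hx : (p : ℤ) ∣ x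
    · rw [if_pos hx] at v1
      rw [if_pos ⟨hx, he⟩]
      exact Nat.pow_le_pow_right p0 v1
    · rw [if_neg hx] at v1
      rw [if_neg fun hh => hx hh.1, show W.factorization p = 0 by omega, pow_zero, one_pow]
  · rw [if_pos ho, if_neg fun hh => Nat.not_even_iff_odd.2 ho hh.2, one_pow, mul_one]
    obtain ⟨j, hj⟩ := ho
    have v3 : W.factorization p ≤ 1 := by split_ifs at v1 <;> omega
    exact (Nat.pow_le_pow_right p0 v3).trans (pow_one p).le

theorem sqf3_row : SQF3_s := by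
  intro x y hP h
  have h' := sub_ne_zero.1 h
  have o1 : 1 ≤ od x y :=
    sqf3_one fun p hp => Nat.prime_of_mem_primeFactors (Finset.mem_filter.1 hp).1
  have s1 : 1 ≤ SD x y := one_le_mul_of_one_le_of_one_le (Real.one_le_sqrt.2 o1)
    (sqf3_one fun p hp => Nat.prime_of_mem_primeFactors (Finset.mem_filter.1 hp).1)
  obtain ⟨a₁, a₂, k, w, p1, p2, -, ez, c1, d1, d2, -, -, hw, -⟩ := sqf_exists_a h' hP
  have w0 : w ≠ 0 := fun h0 => h (by rw [ez, h0, mul_zero])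
  have hD : DD x y (a₁ * a₂) = 432 * (w.natAbs : ℝ) := by
    have q1 : (0 : ℝ) < a₁ := by exact_mod_cast p1
    have q2 : (0 : ℝ) < a₂ := by exact_mod_cast p2
    unfold DD
    rw [ez, Nat.cast_natAbs]
    push_cast
    rw [abs_mul, abs_of_nonneg (sq_nonneg _)]
    field_simp
  have w1 : (1 : ℝ) ≤ w.natAbs := by exact_mod_cast Int.natAbs_pos.2 w0
  have w2 : (w.natAbs : ℝ) ≤ NN x y :=
    le_trans (by exact_mod_cast Nat.le_of_dvd (sqf_NS_pos x y) hw) (sqf_le x y h)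
  have w3 : (w.natAbs : ℝ) ≤ SD x y ^ 2 := by
    have hl := sqf3_le h' (a := a₁ * a₂) (by
      rw [ez, Int.natAbs_mul, Int.natAbs_pow, Int.natAbs_mul, Int.natAbs_natCast,
        Int.natAbs_natCast]) hw
    unfold SD
    rw [mul_pow, Real.sq_sqrt (zero_le_one.trans o1)]
    unfold od
    rw [← Nat.cast_prod, ← Nat.cast_prod, ← Nat.cast_pow, ← Nat.cast_mul]
    exact Nat.cast_le.2 hl
  refine ⟨s1, a₁ * a₂, ⟨Nat.mul_pos p1 p2, ⟨w, by push_cast; exact ez⟩, a₁, a₂, rfl, c1, d1, d2⟩,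
    by rw [hD]; linarith, by rw [hD]; linarith, by rw [hD]; linarith, fun η e0 e1 => ?_⟩
  have w0' : (0 : ℝ) < w.natAbs := zero_lt_one.trans_le w1
  rw [hD, Real.mul_rpow (by norm_num) w0'.le, Real.rpow_add w0']
  refine mul_le_mul ?_ (mul_le_mul ?_ (Real.rpow_le_rpow w0'.le w2 e0) (by positivity)
    (zero_le_one.trans s1)) (by positivity) (by norm_num)
  · calc (432 : ℝ) ^ (1 / 2 + η) ≤ 432 ^ (1 : ℝ) :=
          Real.rpow_le_rpow_of_exponent_le (by norm_num) (by linarith)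
      _ = 432 := Real.rpow_one _
  · rw [← Real.sqrt_eq_rpow]
    exact (Real.sqrt_le_left (zero_le_one.trans s1)).2 w3

theorem cpu3_sqrt {D S : ℝ} (hS : 0 ≤ S) (h : D ≤ 432 * S ^ 2) : √D ≤ 21 * S := by
  rw [Real.sqrt_le_left (by linarith)]
  nlinarith [sq_nonneg S]

theorem cpu3_row (hFAMX : FAMX_s) (hARI : ARI_s) (hSQF3 : SQF3_s) : CPU3_s := by
  intro δ ε η hδ hε hη
  obtain ⟨σ, c0, k, s0, s1, hc0, hk, hA⟩ := hARI (ε / 2) (2 / η) (by linarith) (by positivity)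
  obtain ⟨CK, hCK, hK⟩ := gKC σ δ k s0 s1 hδ hk
  obtain ⟨CF, hCF, hF⟩ := fFEW (ε / 2) 0 (by linarith) le_rfl
  refine ⟨c0 + CK, CK + CK * (CF * (252 * CK)), by linarith, by positivity, ?_⟩
  intro L _ _ x y t1 t2 t3 hC p w T hpQ hB h1 h2
  obtain ⟨-, hQ, hR, hM⟩ := (fALG L x y t1 t2 t3 hC.toCub0).2.2.2.2.2.2.2.2.2.2.2.2.2
  obtain ⟨hS, a, ha, -, hD1, hD2, -⟩ := hSQF3 x y hC.prim hC.ne
  have hq : (0 : ℝ) ≤ (Qs x y).card := Nat.cast_nonneg _
  have M1 : 1 ≤ NN x y := by linarith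
  have z1 : 1 ≤ NN x y ^ ε := Real.one_le_rpow M1 hε.le
  have z0 : 1 ≤ SD x y * NN x y ^ ε := one_le_mul_of_one_le_of_one_le hS z1
  have z2 : 0 ≤ CK * (CF * (252 * CK)) := by positivity
  rw [mul_assoc]
  rcases lt_or_ge (T : ℝ) CK with hT | hT
  · nlinarith
  obtain ⟨N, c, I, hN, hc, hI, -, hTI, hP⟩ := hK L x y t1 t2 t3 hC p w T hB (by nlinarith) hT
  have n2 := hC.n2
  have n3 := hC.n3
  have d0 : DF t1 ≤ DD x y a := by
    rcases (show dg t1 = 2 ∨ dg t1 = 3 by omega) with hn | hn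
    · exact fDISC2 L x y t1 t2 t3 hC hn a ha
    · exact fDISC3 L x y t1 t2 t3 hC hn a ha
  have d1 : 1 ≤ DF t1 := by
    rw [DF]
    exact_mod_cast Int.one_le_abs (NumberField.discr_ne_zero _)
  have d3 : Real.log (NN x y) ≤ 2 / η * Real.log p := by
    refine (Real.log_le_log (by linarith) (cpu_nn hC.ne)).trans ?_
    rw [Real.log_pow, div_mul_eq_mul_div, le_div_iff₀ hη]
    push_cast
    linarith
  obtain ⟨r, r0, l, r1, r2, l1, a1, a2, a3, a4, a5, a6, a7⟩ := hA (dg t1) p (DF t1) (Qs x y).card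
    (NN x y) n2 n3 hB.pr.two_le d1 hq (by linarith) (d0.trans hD1)
    ((cp_le_rad x y hQ p hpQ).trans hM) d3 (by nlinarith)
  obtain ⟨J, j1, j2⟩ := hFAMX L x y t1 t2 t3 hC δ p w T hB N c I k l r r0 hN hc hI (by linarith) r2
    l1 a2 a3 a4 a5 a6
  obtain ⟨f1, f2⟩ := hF _ hQ
  rw [zero_mul, Real.exp_zero, one_mul] at f1
  have f3 : Kc (Qs x y) ≤ CF * NN x y ^ (ε / 2) := f1.trans (mul_le_mul_of_nonneg_left
    (Real.rpow_le_rpow (by change 0 ≤ Rad x y; linarith) hM (by linarith)) (by linarith))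
  have z4 : NN x y ^ (ε / 2) * NN x y ^ (ε / 2) = NN x y ^ ε := by
    rw [← Real.rpow_add (by linarith)]; ring_nf
  have z5 : 0 ≤ NN x y ^ (ε / 2) := by positivity
  generalize NN x y ^ (ε / 2) = Z at *
  have b1 := cpu_cnt J (l / 2) (fun i Y => c ∣ i ∧ i < c * I ∧ Apx x y t1 t2 t3 N i r Y) (Cw w k) _
    (fun i hi => (j2 i hi).2.2.imp fun S hS =>
      ⟨hS.1, fun Y hY => ⟨(j2 i hi).1, (j2 i hi).2.1, hS.2.1 Y hY⟩, hS.2.2⟩)
    (hP k r hk le_rfl r1 a1)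
  have b2 : (0 : ℝ) < l := by exact_mod_cast l1.pos
  have b0 : (l : ℝ) ≤ 3 * ((l / 2 : ℕ) : ℝ) := by
    have h3 := l1.two_le
    have h4 : l ≤ 3 * (l / 2) := by omega
    exact_mod_cast h4
  have s2 : √(DF t1) ≤ 21 * SD x y := cpu3_sqrt (by linarith) (d0.trans hD2)
  have hJ : (0 : ℝ) ≤ J.card := Nat.cast_nonneg _
  have b3 : (J.card : ℝ) ≤ 126 * CK * (SD x y * Z) := by
    refine le_of_mul_le_mul_left ?_ b2
    calc (l : ℝ) * J.card ≤ 3 * ((l / 2 : ℕ) : ℝ) * J.card := by gcongr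
      _ = 3 * (((l / 2 : ℕ) : ℝ) * J.card) := by ring
      _ ≤ 3 * (CK * (p : ℝ) ^ k) := by gcongr
      _ ≤ 3 * (CK * (l * (2 * √(DF t1) * Z))) := by gcongr
      _ ≤ 3 * (CK * (l * (2 * (21 * SD x y) * Z))) := by gcongr
      _ = _ := by ring
  have b4 : (T : ℝ) ≤ CK * (CF * (252 * CK)) * (SD x y * (Z * Z)) := calc
    (T : ℝ) ≤ CK * I := hTI
    _ ≤ CK * (2 * Kc (Qs x y) * J.card) := by gcongr
    _ ≤ CK * (2 * (CF * Z) * (126 * CK * (SD x y * Z))) := by gcongr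
    _ = _ := by ring
  rw [z4] at b4
  nlinarith

theorem ca3_row (hSQF3 : SQF3_s) : CA3_s := by
  intro δ ε hδ hε
  obtain ⟨η, hη, hη1, hη2⟩ : ∃ η : ℝ, 0 < η ∧ η ≤ 1 / 12 ∧ 3 * η ≤ ε :=
    ⟨min (1 / 12) (ε / 3), by positivity, min_le_left _ _, by
      have := min_le_right (1 / 12 : ℝ) (ε / 3); linarith⟩
  obtain ⟨C1, c1, h1⟩ := fGM (δ / 2) η (by linarith) hη
  obtain ⟨C3, c3, h3⟩ := fFEW η 3 hη (by norm_num)
  refine ⟨864 * C1 * C3 * Real.exp (3 * C1 + 23) / δ, by positivity, ?_⟩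
  intro L _ _ x y t1 t2 t3 hC φ hW
  obtain ⟨-, -, -, -, -, -, ⟨p0, p1⟩, -, -, -, -, -, -, -, hQ, hR, hN⟩ :=
    fALG L x y t1 t2 t3 hC.toCub0
  obtain ⟨hs1, a, ha, d1, -, -, d2⟩ := hSQF3 x y hC.prim hC.ne
  have hQ0 : (0 : ℝ) ≤ (Qs x y).card := Nat.cast_nonneg _
  obtain ⟨G, hG⟩ : ∃ G : ℝ, G = C1 + (Qs x y).card + 1 := ⟨_, rfl⟩
  have g1 : 1 ≤ G := by linarith
  obtain ⟨W, hW'⟩ : ∃ W : ℝ, W = -lg (Sum.inl φ) (ps x t1 t2 - 1) := ⟨_, rfl⟩
  rw [← hW'] at hW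
  obtain ⟨T, hT⟩ : ∃ T : ℕ, T = ⌊W / G⌋₊ := ⟨_, rfl⟩
  have t1' : W < (T + 1) * G := by
    rw [← div_lt_iff₀ (by linarith), hT]
    exact Nat.lt_floor_add_one _
  have k1 : 1 ≤ Real.exp (2 * G + 20) := Real.one_le_exp (by linarith)
  have e1 : 1 ≤ DD x y a ^ (1 / 2 + η) := Real.one_le_rpow (by linarith) (by linarith)
  have e2 : 1 ≤ Rad x y ^ η := Real.one_le_rpow (by linarith) hη.le
  have key : (T : ℝ) + 1 ≤ 2 * (C1 * Real.exp (2 * G + 20) * DD x y a ^ (1 / 2 + η) *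
      Rad x y ^ η) := by
    have e3 := one_le_mul_of_one_le_of_one_le
      (one_le_mul_of_one_le_of_one_le (one_le_mul_of_one_le_of_one_le c1 k1) e1) e2
    rcases Nat.eq_zero_or_pos T with T0 | T0
    · rw [T0, Nat.cast_zero]
      linarith
    have T1 : (1 : ℝ) ≤ T := by exact_mod_cast T0
    have t2' : T * G ≤ W := by
      rw [← le_div_iff₀ (by linarith), hT]
      exact Nat.floor_le (zero_le_one.trans (Nat.floor_pos.1 (hT ▸ T0)))
    have nr : av (Sum.inl φ) (ps x t1 t2 - 1) ≤ Real.exp (-(T * G)) := by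
      have b1 : 0 < av (Sum.inl φ : Pl L) (ps x t1 t2 - 1) := AbsoluteValue.pos _ (sub_ne_zero.2 p1)
      rw [← Real.log_le_iff_le_exp b1]
      unfold lg at hW'
      linarith
    have nr' : ‖φ (ps x t1 t2 - 1)‖ ≤ 1 / 2 := by
      refine le_trans nr ((Real.exp_le_exp.2 (show -(T * G) ≤ -1 by nlinarith)).trans ?_)
      rw [Real.exp_neg, ← one_div]
      exact one_div_le_one_div_of_le (by norm_num) (by linarith [Real.add_one_le_exp 1])
    obtain ⟨col, b1, b2⟩ := fCOLA G (by linarith)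
    have := h1 L x y t1 t2 t3 hC a ha {Sum.inl φ} (fun _ => G) T _
      ⟨fun v hv => by rw [mem_singleton.1 hv]; exact ⟨by linarith, g1⟩,
        fun v hv => by rw [mem_singleton.1 hv]; exact nr, by rw [sum_singleton]; nlinarith⟩
      (by rw [sum_singleton]; linarith) k1
      ⟨fun u => col (φ u), fun u hu => b1 _ ((fADM L x y t1 t2 t3 u hC hu).2.2.1 φ nr').2,
        fun u u' hu hu' e v hv => by
          have b3 := (fADM L x y t1 t2 t3 u hC hu).2.2.1 φ nr'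
          have b4 := (fADM L x y t1 t2 t3 u' hC hu').2.2.1 φ nr'
          have b5 := b2 _ _ b3.2 b4.2 b4.1 e
          rw [← map_div₀, ← map_one φ, ← map_sub] at b5
          rw [mem_singleton.1 hv]
          exact b5⟩
    linarith
  obtain ⟨n, hn⟩ : ∃ n : ℝ, n = NN x y ^ η := ⟨_, rfl⟩
  have N0 : 0 ≤ NN x y := by linarith
  have n1 : Rad x y ^ η ≤ n := hn ▸ Real.rpow_le_rpow (by linarith) hN hη.le
  have n0 : 0 ≤ n := by linarith
  obtain ⟨s, hs⟩ : ∃ s : ℝ, s = SD x y := ⟨_, rfl⟩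
  have s0 : 0 ≤ s := by linarith
  have n2 : DD x y a ^ (1 / 2 + η) ≤ 432 * (s * n) := by
    rw [hs, hn]
    exact d2 η hη.le (by linarith)
  have n3 : s * n ^ 3 ≤ SD x y * NN x y ^ ε := by
    rw [hn, hs, ← Real.rpow_mul_natCast N0]
    exact mul_le_mul_of_nonneg_left
      (Real.rpow_le_rpow_of_exponent_le (by linarith) (by push_cast; linarith)) (by linarith)
  obtain ⟨f1, f2⟩ := h3 (Qs x y) hQ
  have f3 : Real.exp (3 * (Qs x y).card) ≤ C3 * n :=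
    ((le_mul_of_one_le_right (Real.exp_pos _).le f2).trans f1).trans
      (mul_le_mul_of_nonneg_left n1 (by linarith))
  have f4 : Real.exp (2 * G + 20) * G ≤ Real.exp (3 * C1 + 23) * (C3 * n) := by
    refine (mul_le_mul_of_nonneg_left (by linarith [Real.add_one_le_exp G] : G ≤ Real.exp G)
      (Real.exp_pos _).le).trans (le_trans (le_of_eq ?_)
        (mul_le_mul_of_nonneg_left f3 (Real.exp_pos _).le))
    rw [← Real.exp_add, ← Real.exp_add, hG]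
    congr 1
    ring
  have f5 : DD x y a ^ (1 / 2 + η) * Rad x y ^ η ≤ 432 * (s * n) * n :=
    mul_le_mul n2 n1 (by linarith) (by positivity)
  have f6 := mul_le_mul f4 f5 (mul_nonneg (by linarith) (by linarith))
    (mul_nonneg (Real.exp_pos _).le (mul_nonneg (by linarith) n0))
  have f7 : δ * ht (ps x t1 t2) ≤ 864 * C1 * C3 * Real.exp (3 * C1 + 23) * (s * n ^ 3) := by
    have b1 := mul_le_mul_of_nonneg_right key (by linarith : 0 ≤ G)
    have b2 := mul_le_mul_of_nonneg_left f6 (by linarith : 0 ≤ 2 * C1)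
    calc δ * ht (ps x t1 t2) ≤ _ := (hW.trans t1'.le).trans b1
      _ = _ := by ring
      _ ≤ _ := b2
      _ = _ := by ring
  unfold Bd3
  rw [mul_assoc, div_mul_eq_mul_div, le_div_iff₀ hδ, mul_comm]
  exact f7.trans (mul_le_mul_of_nonneg_left n3 (by positivity))

theorem cs3_num (δ ε η Cm Cf c0 q R N D K T h s : ℝ) (hδ : 0 < δ) (hη : 0 < η) (hη1 : η ≤ 1 / 100)
    (hη2 : 11 * η ≤ ε) (hCm : 1 ≤ Cm)
    (hCf : 1 ≤ Cf) (hc0 : 0 ≤ c0) (hq : 0 ≤ q) (hR : 2 ≤ R) (hN : R ≤ N) (hD0 : 0 ≤ D) (hs1 : 1 ≤ s)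
    (hD : D ^ (1 / 2 + η) ≤ 432 * (s * N ^ η)) (hF : Real.exp ((1 + 6 * c0) * q) ≤ Cf * R ^ η)
    (hK : K ≤ Real.exp (Cm + q + η * Real.log R + 6 * (c0 + c0 * q + η * Real.log R)))
    (hT : T ≤ Cm * K * D ^ (1 / 2 + η) * R ^ η)
    (hh : δ * h ≤ (T + 1) * (Cm + q + η * Real.log R + 6 * Real.log R)) :
    h ≤ (Cm * Real.exp (Cm + 6 * c0) * Cf * 432 + 1) * (Cm + Cf + 7 / η) / δ * s * N ^ ε := by
  have hR0 : 0 < R := by linarith
  have hN1 : 1 ≤ N := by linarith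
  have hN0 : 0 < N := by linarith
  obtain ⟨u, hu⟩ : ∃ u, u = N ^ η := ⟨_, rfl⟩
  have hu1 : 1 ≤ u := hu ▸ Real.one_le_rpow hN1 hη.le
  have hRu : R ^ η ≤ u := hu ▸ Real.rpow_le_rpow hR0.le hN hη.le
  have hup : ∀ k : ℕ, u ^ k = N ^ (η * k) := fun k => by
    rw [hu, ← Real.rpow_natCast, ← Real.rpow_mul hN0.le]
  have hlR : Real.log R ≤ u / η :=
    (Real.log_le_rpow_div hR0.le hη).trans (div_le_div_of_nonneg_right hRu hη.le)
  have hlR0 : 0 ≤ Real.log R := Real.log_nonneg (by linarith)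
  have hF' : Real.exp ((1 + 6 * c0) * q) ≤ Cf * u :=
    hF.trans (mul_le_mul_of_nonneg_left hRu (by linarith))
  have hq1 : q ≤ Cf * u := by
    have h1 := Real.add_one_le_exp ((1 + 6 * c0) * q)
    nlinarith [mul_nonneg hc0 hq]
  have h7 : Real.exp (η * (7 : ℕ) * Real.log R) ≤ u ^ 7 := by
    rw [hup, mul_comm, ← Real.rpow_def_of_pos hR0]
    exact Real.rpow_le_rpow hR0.le hN (by positivity)
  have hK' : K ≤ Real.exp (Cm + 6 * c0) * (Cf * u) * u ^ 7 := by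
    refine hK.trans ?_
    have : Cm + q + η * Real.log R + 6 * (c0 + c0 * q + η * Real.log R) =
      (Cm + 6 * c0) + (1 + 6 * c0) * q + η * (7 : ℕ) * Real.log R := by push_cast; ring
    rw [this, Real.exp_add, Real.exp_add]
    gcongr
  have hD' : D ^ (1 / 2 + η) ≤ 432 * (s * u) := hu ▸ hD
  have hK0 : 0 ≤ Real.exp (Cm + 6 * c0) * (Cf * u) * u ^ 7 := by positivity
  have hT' : T ≤ Cm * Real.exp (Cm + 6 * c0) * Cf * 432 * (s * u ^ 10) := by
    refine hT.trans ?_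
    calc Cm * K * D ^ (1 / 2 + η) * R ^ η
        ≤ Cm * (Real.exp (Cm + 6 * c0) * (Cf * u) * u ^ 7) * (432 * (s * u)) * u := by gcongr
      _ = _ := by ring
  have h60 : 1 ≤ s * u ^ 10 := one_le_mul_of_one_le_of_one_le hs1 (one_le_pow₀ hu1)
  have hT1 : T + 1 ≤ (Cm * Real.exp (Cm + 6 * c0) * Cf * 432 + 1) * (s * u ^ 10) := by linarith
  have hE : Cm + q + η * Real.log R + 6 * Real.log R ≤ (Cm + Cf + 7 / η) * u := by
    have e : (Cm + Cf + 7 / η) * u = Cm * u + Cf * u + 7 * (u / η) := by ring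
    rw [e]
    nlinarith
  have h61 : s * u ^ 10 * u ≤ s * N ^ ε := by
    rw [mul_assoc, ← pow_succ, hup]
    exact mul_le_mul_of_nonneg_left
      (Real.rpow_le_rpow_of_exponent_le hN1 (by push_cast; linarith)) (by linarith)
  have h8 : δ * h ≤ (Cm * Real.exp (Cm + 6 * c0) * Cf * 432 + 1) * (Cm + Cf + 7 / η) *
      (s * N ^ ε) := by
    refine hh.trans ?_
    calc (T + 1) * (Cm + q + η * Real.log R + 6 * Real.log R)
        ≤ ((Cm * Real.exp (Cm + 6 * c0) * Cf * 432 + 1) * (s * u ^ 10)) * ((Cm + Cf + 7 / η) * u) :=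
          mul_le_mul hT1 hE (by positivity) (by positivity)
      _ = (Cm * Real.exp (Cm + 6 * c0) * Cf * 432 + 1) * (Cm + Cf + 7 / η) * (s * u ^ 10 * u) := by
          ring
      _ ≤ _ := mul_le_mul_of_nonneg_left h61 (by positivity)
  rw [mul_assoc, div_mul_eq_mul_div, le_div_iff₀ hδ]
  linarith

theorem cs3_row (hSQF3 : SQF3_s) : CS3_s := by
  classical
  intro δ ε hδ hε
  obtain ⟨η, hη, hη1, hη2⟩ : ∃ η : ℝ, 0 < η ∧ η ≤ 1 / 100 ∧ 11 * η ≤ ε :=
    ⟨min (1 / 100) (ε / 11), by positivity, min_le_left _ _, by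
      have := min_le_right (1 / 100 : ℝ) (ε / 11); linarith⟩
  refine ⟨η, hη, fun c0 hc0 => ?_⟩
  obtain ⟨Cm, hCm, hM⟩ := fGM (δ * η / 14) η (by positivity) hη
  obtain ⟨Cf, hCf, hF⟩ := fFEW η (1 + 6 * c0) hη (by positivity)
  refine ⟨(Cm * Real.exp (Cm + 6 * c0) * Cf * 432 + 1) * (Cm + Cf + 7 / η) / δ, by positivity, ?_⟩
  intro L _ _ x y t1 t2 t3 hc S hS hht
  obtain ⟨-, -, -, -, -, -, ⟨hp0, hp1⟩, -, -, -, -, -, hq, -, hQp, hR2, hRN⟩ :=
    fALG L x y t1 t2 t3 hc.toCub0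
  obtain ⟨hs1, a, hSq, hD1, -, -, hD2⟩ := hSQF3 x y hc.prim hc.ne
  have hQ0 : (0 : ℝ) ≤ (Qs x y).card := Nat.cast_nonneg _
  have hlR : 0 ≤ Real.log (Rad x y) := Real.log_nonneg (by linarith)
  have hln : ∀ w : FinitePlace L, 0 < Real.log (nq w) := fun w =>
    Real.log_pos (by linarith [(fVAL L w).1])
  have hd : (finrank ℚ L : ℝ) ≤ 6 := by exact_mod_cast hc.d6
  have hF1 : Real.exp ((1 + 6 * c0) * (Qs x y).card) ≤ Cf * Rad x y ^ η := by
    obtain ⟨h1, h2⟩ := hF (Qs x y) hQp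
    exact (le_mul_of_one_le_right (Real.exp_pos _).le h2).trans h1
  choose! v hv using fun w (hw : w ∈ S) => cs_val fVAL w _ (sub_ne_zero.mpr hp1) (hS w hw).1
  have hW : ∑ w ∈ S, -lg (Sum.inr w) (ps x t1 t2 - 1) = ∑ w ∈ S, v w * Real.log (nq w) := by
    refine Finset.sum_congr rfl fun w hw => ?_
    change -Real.log (w (ps x t1 t2 - 1)) = _
    rw [hv w hw, Real.log_exp, neg_neg]
  rw [hW] at hht
  have hsum : ∑ w ∈ S, Real.log (nq w) ≤ 6 * Real.log (Rad x y) :=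
    cs_sum fVAL2 hc.d6 (fun w => (hln w).le) _ hQp S fun w hw => by
      obtain ⟨q, h1, h2, -⟩ := (hS w hw).2
      exact ⟨q, h1, h2⟩
  obtain ⟨G, hG⟩ : ∃ G, G = Cm + (Qs x y).card + η * Real.log (Rad x y) := ⟨_, rfl⟩
  obtain ⟨W, hWd⟩ : ∃ W, W = ∑ w ∈ S, v w * Real.log (nq w) := ⟨_, rfl⟩
  have hW0 : 0 ≤ W := hWd ▸ Finset.sum_nonneg fun w _ => mul_nonneg (Nat.cast_nonneg _) (hln w).le
  have hηl : 0 ≤ η * Real.log (Rad x y) := mul_nonneg hη.le hlR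
  have hG1 : 1 ≤ G := by linarith
  have hE0 : 0 < G + 6 * Real.log (Rad x y) := by linarith
  obtain ⟨T, hT⟩ : ∃ T : ℕ, T = ⌊W / (G + 6 * Real.log (Rad x y))⌋₊ := ⟨_, rfl⟩
  have hT1 : T * (G + 6 * Real.log (Rad x y)) ≤ W := by
    rw [← le_div_iff₀ hE0, hT]
    exact Nat.floor_le (by positivity)
  have hT2 : W ≤ (T + 1) * (G + 6 * Real.log (Rad x y)) := by
    rw [← div_le_iff₀ hE0, hT]
    exact (Nat.lt_floor_add_one _).le
  rw [← hWd] at hht
  have fin : ∀ K : ℝ, K ≤ Real.exp (G + 6 * (c0 + c0 * (Qs x y).card +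
      η * Real.log (Rad x y))) →
      (T : ℝ) ≤ Cm * K * DD x y a ^ (1 / 2 + η) * Rad x y ^ η →
      Bd3 ε ((Cm * Real.exp (Cm + 6 * c0) * Cf * 432 + 1) * (Cm + Cf + 7 / η) / δ) x y t1 t2 :=
    fun K h1 h2 => cs3_num δ ε η Cm Cf c0 _ _ _ _ K T _ _ hδ hη hη1 hη2 hCm hCf hc0 hQ0 hR2 hRN (by linarith)
      hs1 (hD2 η hη.le (by linarith)) hF1 (hG ▸ h1) h2 (hG ▸ hht.trans hT2)
  rcases Nat.eq_zero_or_pos T with hT0 | hT0
  · exact fin 0 (Real.exp_pos _).le (by rw [hT0]; simp)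
  have hTr : (1 : ℝ) ≤ T := by exact_mod_cast hT0
  obtain ⟨j, hj1, hj2, hj3⟩ := fSEL _ S (fun w => Real.log (nq w)) v T G
    (6 * (c0 + c0 * (Qs x y).card + η * Real.log (Rad x y))) hT0 (by linarith)
    (fun w hw => by
      obtain ⟨q, h1, h2, h3⟩ := (hS w hw).2
      have h4 := ((fVAL L w).2.2.2.2 q (hQp q h1) h2).2.1
      have h5 := Real.log_le_log (by linarith [(fVAL L w).1]) h4
      rw [Real.log_pow] at h5
      have h6 := mul_le_mul_of_nonneg_right hd (Real.log_natCast_nonneg q)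
      exact ⟨hln w, by linarith⟩)
    (by
      rw [← hWd]
      refine le_trans (mul_le_mul_of_nonneg_left ?_ (by linarith)) hT1
      linarith)
  obtain ⟨S', hS'⟩ : ∃ S', S' = S.filter fun w => j w ≠ 0 := ⟨_, rfl⟩
  have hm : ∀ w ∈ S', w ∈ S ∧ j w ≠ 0 := fun w hw => Finset.mem_filter.mp (hS' ▸ hw)
  have hs' : ∑ w ∈ S', j w * Real.log (nq w) = ∑ w ∈ S, j w * Real.log (nq w) := by
    rw [hS']
    refine Finset.sum_filter_of_ne fun w _ h => ?_
    intro h0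
    exact h (by rw [h0]; simp)
  obtain ⟨g, hg⟩ : ∃ g : Pl L → ℝ, ∀ w, g (Sum.inr w) = j w * Real.log (nq w) :=
    ⟨Sum.elim (fun _ => 0) fun w => j w * Real.log (nq w), fun _ => rfl⟩
  have hsg : ∑ u ∈ S'.map Function.Embedding.inr, g u = ∑ w ∈ S, j w * Real.log (nq w) := by
    rw [Finset.sum_map, ← hs']
    exact Finset.sum_congr rfl fun w _ => hg w
  have hmem : ∀ u ∈ S'.map (Function.Embedding.inr : _ ↪ Pl L), ∃ w ∈ S', u = Sum.inr w :=
    fun u hu => by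
      obtain ⟨w, h1, h2⟩ := Finset.mem_map.mp hu
      exact ⟨w, h1, h2.symm⟩
  have hHv : Hv (δ * η / 14) (ps x t1 t2) (S'.map Function.Embedding.inr) g T := by
    refine ⟨fun u hu => ?_, fun u hu => ?_, ?_⟩
    · obtain ⟨w, h1, rfl⟩ := hmem u hu
      have h2 : (0 : ℝ) < j w := by exact_mod_cast Nat.pos_of_ne_zero (hm w h1).2
      have h3 : 0 < g (Sum.inr w) := hg w ▸ mul_pos h2 (hln w)
      exact ⟨h3, h3.le⟩
    · obtain ⟨w, h1, rfl⟩ := hmem u hu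
      change w (ps x t1 t2 - 1) ≤ _
      rw [hv w (hm w h1).1, hg]
      have h2 : (T : ℝ) * j w ≤ v w := by exact_mod_cast hj1 w (hm w h1).1
      have h3 := mul_le_mul_of_nonneg_right h2 (hln w).le
      exact Real.exp_le_exp.mpr (by linarith)
    · rw [hsg]
      have h1 : η * (G + 6 * Real.log (Rad x y)) ≤ 7 * G := by nlinarith
      have h2 : ((T : ℝ) + 1) * (η * (G + 6 * Real.log (Rad x y))) ≤ (2 * T) * (7 * G) :=
        mul_le_mul (by linarith) h1 (mul_pos hη hE0).le (by linarith)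
      have h3 := mul_le_mul_of_nonneg_left hj2 (show (0 : ℝ) ≤ T by linarith)
      have h4 := mul_le_mul_of_nonneg_left (hht.trans hT2) hη.le
      nlinarith
  have hK : ∏ w ∈ S', nq w ^ j w = Real.exp (∑ w ∈ S, j w * Real.log (nq w)) := by
    rw [← hs', Real.exp_sum]
    refine Finset.prod_congr rfl fun w _ => ?_
    rw [← Real.log_pow, Real.exp_log (pow_pos (by linarith [(fVAL L w).1]) _)]
  obtain ⟨col, hc1, hc2⟩ := fCOLN L S' j
  have hu1 : ∀ b, Adm x y t1 t2 b → ∀ w ∈ S', w b = 1 := fun b hb w hw =>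
    (fADM L x y t1 t2 t3 b hc hb).2.1 w (hq w (hS w (hm w hw).1).1).1
  have hCol : Col (∏ w ∈ S', nq w ^ j w) (Adm x y t1 t2) (S'.map Function.Embedding.inr) g := by
    refine ⟨col, fun b _ => hc1 b, fun b b' hb hb' hbb u hu => ?_⟩
    obtain ⟨w, h1, rfl⟩ := hmem u hu
    rw [hg, Real.exp_neg, ← Real.log_pow, Real.exp_log (pow_pos (by linarith [(fVAL L w).1]) _)]
    exact hc2 b b' (hu1 b hb) (hu1 b' hb') hbb w h1
  refine fin _ ?_ (hM L x y t1 t2 t3 hc a hSq _ g T _ hHv (by rw [hsg]; linarith) ?_ hCol)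
  · rw [hK]
    exact Real.exp_le_exp.mpr hj3
  · rw [hK]
    exact Real.one_le_exp (by linarith)

theorem cp3_fin (δ σ ε C0 h X p N S : ℝ) (hδ : 0 < δ) (hσ : 0 < σ) (h8 : 8 * σ ≤ ε)
    (hN : 1 ≤ N) (hS : 1 ≤ S) (hp1 : 1 ≤ p) (hpN : p ≤ N) (hC : 0 ≤ C0)
    (hh : δ * h ≤ X * Real.log p) (hX : X ≤ C0 * (432 * (S * N ^ σ) * N ^ σ)) :
    h ≤ C0 * 432 / (σ * δ) * S * N ^ ε := by
  have hN0 : 0 < N := by linarith
  have hS0 : 0 ≤ S := by linarith
  have l0 : 0 ≤ Real.log p := Real.log_nonneg hp1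
  have l1 : Real.log p ≤ N ^ σ / σ :=
    (Real.log_le_log (by linarith) hpN).trans (Real.log_le_rpow_div hN0.le hσ)
  have l3 : N ^ σ * N ^ σ * N ^ σ ≤ N ^ ε := by
    rw [← Real.rpow_add hN0, ← Real.rpow_add hN0]
    exact Real.rpow_le_rpow_of_exponent_le hN (by linarith)
  have l5 : X * Real.log p ≤ C0 * (432 * (S * N ^ σ) * N ^ σ) * (N ^ σ / σ) :=
    (mul_le_mul_of_nonneg_right hX l0).trans (mul_le_mul_of_nonneg_left l1 (by positivity))
  have l6 : C0 * (432 * (S * N ^ σ) * N ^ σ) * (N ^ σ / σ) =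
      C0 * 432 / σ * S * (N ^ σ * N ^ σ * N ^ σ) := by
    field_simp
  have l7 : δ * h ≤ C0 * 432 / σ * S * N ^ ε := by
    refine hh.trans (l5.trans ?_)
    rw [l6]
    exact mul_le_mul_of_nonneg_left l3 (by positivity)
  have l8 : C0 * 432 / (σ * δ) * S * N ^ ε = C0 * 432 / σ * S * N ^ ε / δ := by
    field_simp
  rw [l8, le_div_iff₀ hδ]
  linarith

theorem cp3_row (hCPU3 : CPU3_s) (hSQF3 : SQF3_s) : CP3_s := by
  classical
  intro δ ε η hδ hε hη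
  obtain ⟨σ, hσ, hσ1, hσ2⟩ : ∃ σ : ℝ, 0 < σ ∧ σ ≤ 1 / 4 ∧ 8 * σ ≤ ε :=
    ⟨min (1 / 4) (ε / 8), by positivity, min_le_left _ _, by
      have := min_le_right (1 / 4 : ℝ) (ε / 8); linarith⟩
  obtain ⟨Cm, hCm, hM⟩ := fGM δ σ hδ hσ
  obtain ⟨cu, Cu, hcu, hCu, hU⟩ := hCPU3 δ σ η hδ hσ hη
  refine ⟨4 + Cm + cu, by positivity, (12 + 12 * Cm + 6 * Cu) * 432 / (σ * δ),
    by positivity, ?_⟩
  intro L _ _ x y t1 t2 t3 hc p w hpQ hwp hlp hηp hw1 hht
  obtain ⟨-, -, -, -, -, -, ⟨hp0, hp1⟩, -, -, -, -, -, hq, -, hQp, hR2, hRN⟩ :=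
    fALG L x y t1 t2 t3 hc.toCub0
  have hpp : p.Prime := hQp p hpQ
  have hpR : (p : ℝ) ≤ Rad x y := cp_le_rad x y hQp p hpQ
  have hp1' : (1 : ℝ) ≤ p := by exact_mod_cast hpp.one_le
  have hp0' : (0 : ℝ) < p := by linarith
  have hN1 : 1 ≤ NN x y := by linarith
  have hQ0 : (0 : ℝ) ≤ (Qs x y).card := Nat.cast_nonneg _
  have hq1 : 0 ≤ Cm * (Qs x y).card := by positivity
  have hq2 : 0 ≤ cu * (Qs x y).card := by positivity
  have hlp' : 4 + Cm + cu + (4 * (Qs x y).card + Cm * (Qs x y).card + cu * (Qs x y).card) ≤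
      Real.log p := by linarith
  have hl4 : 4 ≤ Real.log p := by linarith
  have hp5 : 5 ≤ p := by
    have h1 := Real.log_le_sub_one_of_pos hp0'
    have h2 : (5 : ℝ) ≤ p := by linarith
    exact_mod_cast h2
  have hlm : Cm + (Qs x y).card ≤ Real.log p := by linarith
  have hlu : cu + cu * (Qs x y).card ≤ Real.log p := by linarith
  obtain ⟨hS, a, hSq, hD1, -, -, hD2⟩ := hSQF3 x y hc.prim hc.ne
  have hZ1 : 1 ≤ NN x y ^ σ := Real.one_le_rpow hN1 hσ.le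
  have hRZ : Rad x y ^ σ ≤ NN x y ^ σ := Real.rpow_le_rpow (by linarith) hRN hσ.le
  have hR0 : 0 ≤ Rad x y ^ σ := Real.rpow_nonneg (by linarith) _
  obtain ⟨Z, hZ⟩ : ∃ Z, Z = 432 * (SD x y * NN x y ^ σ) * NN x y ^ σ := ⟨_, rfl⟩
  have hY0 : 1 ≤ SD x y * NN x y ^ σ := one_le_mul_of_one_le_of_one_le hS hZ1
  have hY1 : 1 ≤ 432 * (SD x y * NN x y ^ σ) := by linarith
  have fin : ∀ X : ℝ, δ * ht (ps x t1 t2) ≤ X * Real.log p →
      X ≤ (12 + 12 * Cm + 6 * Cu) * Z →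
      Bd3 ε ((12 + 12 * Cm + 6 * Cu) * 432 / (σ * δ)) x y t1 t2 := fun X h1 h2 =>
    cp3_fin δ σ ε _ _ X p _ _ hδ hσ hσ2 hN1 hS hp1' (by linarith) (by positivity) h1 (hZ ▸ h2)
  have hYZ : 1 ≤ Z := hZ ▸ one_le_mul_of_one_le_of_one_le hY1 hZ1
  have hz1 : 0 ≤ Cm * Z := by positivity
  have hz2 : 0 ≤ Cu * Z := by positivity
  by_cases hg : (p : ℤ) ∣ x ∧ (p : ℤ) ∣ y
  · refine fin 12 (hht.trans (fEXC L x y t1 t2 t3 hc p w hpp hp5 hwp hg.1 hg.2)) ?_
    linarith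
  obtain ⟨hn2, hpow, -, -, hpr⟩ := fVAL L w
  obtain ⟨hpn, hnp, -, -⟩ := hpr p hpp hwp
  have hn0 : 0 < nq w := by linarith
  have hln : 0 < Real.log (nq w) := Real.log_pos (by linarith)
  obtain ⟨k, hk⟩ := hpow (ps x t1 t2 - 1) (sub_ne_zero.mpr hp1)
  have hk0 : k < 0 := by
    by_contra hcon
    have := one_le_zpow₀ (show 1 ≤ nq w by linarith) (not_lt.mp hcon)
    linarith
  obtain ⟨T, hT⟩ : ∃ T : ℕ, k = -(T : ℤ) := ⟨k.natAbs, by omega⟩
  have hT1 : 1 ≤ T := by omega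
  have hwT : w (ps x t1 t2 - 1) = (nq w ^ T)⁻¹ := by rw [hk, hT, zpow_neg, zpow_natCast]
  have hwE : w (ps x t1 t2 - 1) = Real.exp (-(T * Real.log (nq w))) := by
    rw [hwT, Real.exp_neg, ← Real.log_pow, Real.exp_log (by positivity)]
  have hW : -lg (Sum.inr w) (ps x t1 t2 - 1) = T * Real.log (nq w) := by
    change -Real.log (w (ps x t1 t2 - 1)) = _
    rw [hwE, Real.log_exp, neg_neg]
  rw [hW] at hht
  have hlpn : Real.log p ≤ Real.log (nq w) := Real.log_le_log hp0' hpn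
  have hl6 : Real.log (nq w) ≤ 6 * Real.log p := by
    have h1 := Real.log_le_log hn0 hnp
    rw [Real.log_pow] at h1
    have h2 : (finrank ℚ L : ℝ) ≤ 6 := by exact_mod_cast hc.d6
    exact h1.trans (mul_le_mul_of_nonneg_right h2 (by linarith))
  have hT0 : (0 : ℝ) ≤ T := Nat.cast_nonneg _
  have hmain : δ * ht (ps x t1 t2) ≤ 6 * T * Real.log p := by
    have h1 := mul_le_mul_of_nonneg_left hl6 hT0
    linarith
  by_cases htri : Tri w
  · have h3 := hU L x y t1 t2 t3 hc p w T hpQ ⟨hpp, hp5, hwp, hg, htri, hT1, hwT, hht⟩ hlu hηp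
    have h4 : SD x y * NN x y ^ σ ≤ Z := by
      rw [hZ]
      exact le_trans (by linarith) (le_mul_of_one_le_right (by linarith) hZ1)
    have h5 := mul_le_mul_of_nonneg_left h4 hCu
    rw [mul_assoc] at h3
    exact fin (6 * T) hmain (by linarith)
  have hwψ : w (ps x t1 t2) = 1 := (hq w hw1).1
  have hAdw : ∀ a, Adm x y t1 t2 a → Adw t1 t2 w a := fun a ha =>
    ⟨(fADM L x y t1 t2 t3 a hc ha).2.1 w hwψ, (fADM L x y t1 t2 t3 a hc ha).2.2.2⟩
  have hcol := cp_col hAdw (fBR L x y t1 t2 t3 hc p w hpp hp5 hwp hg hw1 htri)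
  have h1 : Hv δ (ps x t1 t2) {Sum.inr w} (fun _ => Real.log (nq w)) T := by
    refine ⟨fun v hv => ⟨hln, ?_⟩, fun v hv => ?_, ?_⟩
    · rw [Finset.mem_singleton.mp hv]
      exact hln.le
    · rw [Finset.mem_singleton.mp hv]
      exact hwE.le
    · rw [Finset.sum_singleton]
      exact hht
  have h3 := hM L x y t1 t2 t3 hc a hSq _ _ T 2 h1
    (by rw [Finset.sum_singleton]; exact hlm.trans hlpn) (by norm_num) hcol
  have h4 : DD x y a ^ (1 / 2 + σ) * Rad x y ^ σ ≤ Z := by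
    rw [hZ]
    exact mul_le_mul (hD2 σ hσ.le (by linarith)) hRZ hR0 (by linarith)
  have h5 := mul_le_mul_of_nonneg_left h4 (show 0 ≤ Cm * 2 by positivity)
  rw [mul_assoc] at h3
  exact fin (6 * T) hmain (by linarith)

theorem main3_bd {L : Type} [Field L] [NumberField L] {ε C C' : ℝ} {x y : ℤ} {t1 t2 : L}
    (hN : 0 ≤ NN x y) (hS : 1 ≤ SD x y) (h : C ≤ C') (hb : Bd3 ε C x y t1 t2) :
    Bd3 ε C' x y t1 t2 := by
  unfold Bd3 at *
  exact hb.trans (mul_le_mul_of_nonneg_right (mul_le_mul_of_nonneg_right h (by linarith))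
    (Real.rpow_nonneg hN _))

theorem main3_row (hCA3 : CA3_s) (hCS3 : CS3_s) (hCP3 : CP3_s) (hSQF3 : SQF3_s) : MAIN3_s := by
  classical
  intro ε hε
  obtain ⟨Ca, hCa, hA⟩ := hCA3 (1 / 36) ε (by norm_num) hε
  obtain ⟨η, hη, hS0⟩ := hCS3 (1 / 6) ε (by norm_num) hε
  obtain ⟨c0, hc0, Cp, hCp, hP⟩ := hCP3 (η / 36) ε η (by positivity) hε hη
  obtain ⟨Cs, hCs, hS⟩ := hS0 c0 hc0
  refine ⟨12 + Ca + Cs + Cp, by positivity, ?_⟩
  intro L _ _ x y t1 t2 t3 hc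
  obtain ⟨-, -, -, -, -, -, ⟨hp0, hp1⟩, -, -, -, -, -, hq, -, hQp, hR2, hRN⟩ :=
    fALG L x y t1 t2 t3 hc.toCub0
  have hN1 : 1 ≤ NN x y := by linarith
  have hN0 : 0 ≤ NN x y := by linarith
  have hS1 := (hSQF3 x y hc.prim hc.ne).1
  have hd : (finrank ℚ L : ℝ) ≤ 6 := by exact_mod_cast hc.d6
  by_cases h12 : ht (ps x t1 t2) ≤ 12
  · have h1 : 1 ≤ SD x y * NN x y ^ ε :=
      one_le_mul_of_one_le_of_one_le hS1 (Real.one_le_rpow hN1 hε.le)
    unfold Bd3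
    rw [mul_assoc]
    nlinarith
  push Not at h12
  obtain ⟨-, H, hH1, hH2⟩ := fHT1 L _ hp0 hp1
  rw [Finset.sum_sum_eq_sum_toLeft_add_sum_toRight] at hH2
  by_cases ha : ∃ φ : L →+* ℂ, 1 / 36 * ht (ps x t1 t2) ≤ -lg (Sum.inl φ) (ps x t1 t2 - 1)
  · obtain ⟨φ, hφ⟩ := ha
    exact main3_bd hN0 hS1 (by linarith) (hA L x y t1 t2 t3 hc φ hφ)
  push Not at ha
  have hL : ∑ φ ∈ H.toLeft, -lg (Sum.inl φ) (ps x t1 t2 - 1) ≤ ht (ps x t1 t2) / 6 := by
    have h1 := Finset.sum_le_card_nsmul H.toLeft (fun φ => -lg (Sum.inl φ) (ps x t1 t2 - 1))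
      (1 / 36 * ht (ps x t1 t2)) (fun φ _ => (ha φ).le)
    have h2 : (H.toLeft.card : ℝ) ≤ 6 := by
      have h3 : H.toLeft.card ≤ Fintype.card (L →+* ℂ) := Finset.card_le_univ _
      rw [NumberField.Embeddings.card L ℂ] at h3
      have : (H.toLeft.card : ℝ) ≤ finrank ℚ L := by exact_mod_cast h3
      linarith
    rw [nsmul_eq_mul] at h1
    nlinarith
  set sm : FinitePlace L → Prop := fun w => ∃ q ∈ Qs x y, w (q : L) < 1 ∧
      Real.log q ≤ c0 + c0 * (Qs x y).card + η * Real.log (Rad x y) with hsm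
  have hw1 : ∀ w ∈ H.toRight, w (ps x t1 t2 - 1) < 1 := fun w hw =>
    hH1 _ (Finset.mem_toRight.mp hw)
  rw [← Finset.sum_filter_add_sum_filter_not H.toRight sm] at hH2
  by_cases hs : 1 / 6 * ht (ps x t1 t2) ≤
      ∑ w ∈ H.toRight.filter sm, -lg (Sum.inr w) (ps x t1 t2 - 1)
  · refine main3_bd hN0 hS1 (by linarith) (hS L x y t1 t2 t3 hc _ ?_ hs)
    intro w hw
    exact ⟨hw1 w (Finset.mem_filter.mp hw).1, (Finset.mem_filter.mp hw).2⟩
  push Not at hs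
  set Bg := H.toRight.filter (fun w => ¬sm w) with hBg
  have hbig : 1 / 6 * ht (ps x t1 t2) ≤ ∑ w ∈ Bg, -lg (Sum.inr w) (ps x t1 t2 - 1) := by
    linarith
  set B := (Qs x y).filter (fun q : ℕ =>
    c0 + c0 * (Qs x y).card + η * Real.log (Rad x y) ≤ Real.log q) with hB
  have hcov : ∀ w ∈ Bg, ∃ q ∈ B, w (q : L) < 1 := by
    intro w hw
    obtain ⟨hw2, hw3⟩ := Finset.mem_filter.mp hw
    obtain ⟨-, -, q, hq1, hq2⟩ := hq w (hw1 w hw2)
    refine ⟨q, Finset.mem_filter.mpr ⟨hq1, ?_⟩, hq2⟩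
    by_contra hcon
    exact hw3 ⟨q, hq1, hq2, (not_le.mp hcon).le⟩
  have hc00 : 0 ≤ c0 * (Qs x y).card := by positivity
  have hBc : η * B.card ≤ 1 := by
    refine main_few η hη (Qs x y) B hQp (Finset.filter_subset _ _) hR2 ?_
    intro q hq'
    have := (Finset.mem_filter.mp hq').2
    change η * Real.log (Rad x y) ≤ _
    linarith
  have hGc : Bg.card ≤ B.card * 6 := by
    have h1 : Bg ⊆ B.biUnion (fun q => Bg.filter (fun w => w (q : L) < 1)) := by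
      intro w hw
      obtain ⟨q, hq1, hq2⟩ := hcov w hw
      exact Finset.mem_biUnion.mpr ⟨q, hq1, Finset.mem_filter.mpr ⟨hw, hq2⟩⟩
    refine (Finset.card_le_card h1).trans (Finset.card_biUnion_le_card_mul _ _ _ ?_)
    intro q hq'
    exact (fVAL2 L q (hQp q (Finset.mem_filter.mp hq').1) _
      (fun w hw => (Finset.mem_filter.mp hw).2)).2.trans hc.d6
  have hex : ∃ w ∈ Bg, η / 36 * ht (ps x t1 t2) ≤ -lg (Sum.inr w) (ps x t1 t2 - 1) := by
    by_contra hcon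
    push Not at hcon
    have hne : Bg.Nonempty := by
      by_contra he
      rw [Finset.not_nonempty_iff_eq_empty] at he
      rw [he, Finset.sum_empty] at hbig
      linarith
    have h1 := Finset.sum_lt_sum_of_nonempty hne hcon
    rw [Finset.sum_const, nsmul_eq_mul] at h1
    have h2 : (Bg.card : ℝ) ≤ B.card * 6 := by exact_mod_cast hGc
    have h3 : η * Bg.card ≤ 6 := by nlinarith
    nlinarith
  obtain ⟨w, hw, hw2⟩ := hex
  obtain ⟨q, hq1, hq2⟩ := hcov w hw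
  obtain ⟨hq3, hq4⟩ := Finset.mem_filter.mp hq1
  have hlr : 0 ≤ η * Real.log (Rad x y) := mul_nonneg hη.le (Real.log_nonneg (by linarith))
  exact main3_bd hN0 hS1 (by linarith)
    (hP L x y t1 t2 t3 hc q w hq3 hq2 (by linarith) (by linarith) (hw1 w (Finset.mem_filter.mp hw).1) hw2)

theorem top3_row (hMAIN3 : MAIN3_s) (hSQF3 : SQF3_s) : TOP3_s := by
  intro ε hε
  have hε' : (0 : ℝ) < ε / 2 := by linarith
  obtain ⟨C1, hC1, h1⟩ := hMAIN3 (ε / 2) hε'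
  obtain ⟨C2, hC2, h2⟩ := fRAT (ε / 2) hε'
  refine ⟨(6 * C1 + 25 + 24 / ε + C2) * (6 : ℝ) ^ ε, fun x y hne hp => ?_⟩
  have hz : x ^ 3 - y ^ 2 ≠ 0 := sub_ne_zero.2 hne
  have hp' : Prim x y := hp
  have hS1 := (hSQF3 x y hp' hz).1
  have hR1 : (1 : ℝ) ≤ Rad x y := top_one _ fun q hq => Nat.prime_of_mem_primeFactors hq
  have hG1 : (1 : ℝ) ≤ ∏ q ∈ (Int.gcd x y).primeFactors, (q : ℝ) :=
    top_one _ fun q hq => Nat.prime_of_mem_primeFactors hq
  have hZ1 : (1 : ℝ) ≤ ∏ q ∈ (x ^ 3 - y ^ 2).natAbs.primeFactors, (q : ℝ) :=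
    top_one _ fun q hq => Nat.prime_of_mem_primeFactors hq
  have hRN : Rad x y ≤ NN x y := le_mul_of_one_le_right (by linarith) hG1
  have hN1 : (1 : ℝ) ≤ NN x y := hR1.trans hRN
  have hpow : NN x y ^ (ε / 2) ≤ (6 : ℝ) ^ ε *
      (∏ p ∈ (x ^ 3 - y ^ 2).natAbs.primeFactors, (p : ℝ)) ^ ε := by
    rw [← Real.mul_rpow (by norm_num) (by positivity)]
    refine (Real.rpow_le_rpow (by linarith) (cpu_nn hz) hε'.le).trans ?_
    rw [← Real.rpow_natCast, ← Real.rpow_mul (by linarith),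
      show ((2 : ℕ) : ℝ) * (ε / 2) = ε by push_cast; ring]
    exact Real.rpow_le_rpow (by linarith) (top_rad x y hz) hε.le
  have hP1 : (1 : ℝ) ≤ NN x y ^ (ε / 2) := Real.one_le_rpow hN1 hε'.le
  have h3 : Rad x y ^ (ε / 2) ≤ NN x y ^ (ε / 2) := Real.rpow_le_rpow (by linarith) hRN hε'.le
  have hZ : NN x y ^ (ε / 2) ≤ SD x y * NN x y ^ (ε / 2) := le_mul_of_one_le_left (by linarith) hS1
  have he : 0 < 24 / ε := by positivity
  have key : Real.log (max (|(x : ℝ)| ^ 3) ((y : ℝ) ^ 2)) ≤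
      (6 * C1 + 25 + 24 / ε + C2) * (SD x y * NN x y ^ (ε / 2)) := by
    rcases fSTR x y hp' hz with ⟨t1, t2, t3, s1, s2, s3⟩ | ⟨L, _, _, t1, t2, t3, hc⟩
    · have h := h2 x y t1 t2 t3 hp' hz s1 s2 s3
      have h4 := mul_le_mul_of_nonneg_left (h3.trans hZ) hC2
      have h5 : 0 ≤ (6 * C1 + 25 + 24 / ε) * (SD x y * NN x y ^ (ε / 2)) := by positivity
      linarith
    · have hc' := fDEG L x y t1 t2 t3 hc
      have h := fHTL L x y t1 t2 t3 hc'
      have h8 : ht (ps x t1 t2) ≤ C1 * SD x y * NN x y ^ (ε / 2) := h1 L x y t1 t2 t3 hc'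
      have h4 := (fGCD x y hp' hz).1.2
      have h5 : Real.log (Rad x y) ≤ Rad x y ^ (ε / 2) / (ε / 2) :=
        Real.log_le_rpow_div (by linarith) hε'
      have h6 : Rad x y ^ (ε / 2) / (ε / 2) = 24 / ε * Rad x y ^ (ε / 2) / 12 := by
        field_simp
        ring
      have h9 := mul_le_mul_of_nonneg_left (h3.trans hZ) he.le
      have h7 : 0 ≤ C2 * (SD x y * NN x y ^ (ε / 2)) := by positivity
      linarith
  refine key.trans ?_
  rw [mul_assoc, mul_assoc, mul_left_comm ((6 : ℝ) ^ ε)]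
  exact mul_le_mul_of_nonneg_left (mul_le_mul_of_nonneg_left hpow (by linarith)) (by positivity)

theorem mono_sub {A B : Finset ℕ} (h : A ⊆ B) (hB : ∀ p ∈ B, p.Prime) :
    ∏ p ∈ A, (p : ℝ) ≤ ∏ p ∈ B, (p : ℝ) :=
  Finset.prod_le_prod_of_subset_of_one_le h (fun _ _ => Nat.cast_nonneg _)
    fun p hp _ => by exact_mod_cast (hB p hp).one_le

theorem mono_row : MONO_s := by
  intro x y q hq h
  have q0 : (q : ℤ) ≠ 0 := by exact_mod_cast hq.ne_zero
  have e : ((q : ℤ) ^ 2 * x) ^ 3 - ((q : ℤ) ^ 3 * y) ^ 2 = (q : ℤ) ^ 6 * (x ^ 3 - y ^ 2) := by ring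
  have h0 : x ^ 3 - y ^ 2 ≠ 0 := sub_ne_zero.2 h
  have h' : ((q : ℤ) ^ 2 * x) ^ 3 ≠ ((q : ℤ) ^ 3 * y) ^ 2 :=
    sub_ne_zero.1 (by rw [e]; exact mul_ne_zero (pow_ne_zero _ q0) h0)
  have n0 : (x ^ 3 - y ^ 2).natAbs ≠ 0 := Int.natAbs_ne_zero.2 h0
  have en : ((q : ℤ) ^ 6 * (x ^ 3 - y ^ 2)).natAbs = q ^ 6 * (x ^ 3 - y ^ 2).natAbs := by
    rw [Int.natAbs_mul, Int.natAbs_pow, Int.natAbs_natCast]
  unfold SD od
  rw [e, en]
  obtain ⟨n, hn⟩ : ∃ n, n = (x ^ 3 - y ^ 2).natAbs := ⟨_, rfl⟩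
  rw [← hn] at n0 ⊢
  have par : ∀ p : ℕ, ∃ j, (q ^ 6 * n).factorization p = 2 * j + n.factorization p := fun p =>
    ⟨3 * q.factorization p, by
      rw [Nat.factorization_mul (pow_ne_zero _ hq.ne_zero) n0, Finsupp.add_apply,
        Nat.factorization_pow, Finsupp.smul_apply, smul_eq_mul]
      ring⟩
  refine mul_le_mul (Real.sqrt_le_sqrt (mono_sub (fun p hp => ?_) fun p hp =>
    Nat.prime_of_mem_primeFactors (Finset.mem_filter.1 hp).1)) (mono_sub (fun p hp => ?_)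
      fun p hp => Nat.prime_of_mem_primeFactors (Finset.mem_filter.1 hp).1)
    (Finset.prod_nonneg fun _ _ => Nat.cast_nonneg _) (Real.sqrt_nonneg _)
  · obtain ⟨m1, m2⟩ := Finset.mem_filter.1 hp
    obtain ⟨j, hj⟩ := par p
    refine Finset.mem_filter.2 ⟨Nat.primeFactors_mono (dvd_mul_left _ _)
      (mul_ne_zero (pow_ne_zero _ hq.ne_zero) n0) m1, ?_⟩
    rw [hj]
    exact (even_two_mul j).add_odd m2
  · obtain ⟨m1, m2⟩ := Finset.mem_filter.1 hp
    obtain ⟨j, hj⟩ := par p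
    refine Finset.mem_filter.2 ⟨Nat.primeFactors_mono (Int.dvd_gcd
      ((Int.gcd_dvd_left x y).mul_left _) ((Int.gcd_dvd_right x y).mul_left _))
      (sqf_gcd_ne h') m1, ?_⟩
    rw [hj]
    exact (even_two_mul j).add m2

theorem red3_sd (x y : ℤ) : 0 ≤ SD x y := by
  unfold SD
  positivity

theorem red3_row (hTOP3 : TOP3_s) (hMONO : MONO_s) : RED3_s := by
  intro ε hε
  obtain ⟨C, hC⟩ := hTOP3 ε hε
  refine ⟨max C 0, fun x y => ?_⟩
  induction hn : x.natAbs + y.natAbs using Nat.strong_induction_on generalizing x y with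
  | _ n ih =>
    intro hxy
    have hne : ¬(x = 0 ∧ y = 0) := fun h => hxy (by rw [h.1, h.2]; norm_num)
    by_cases hp : ∀ q : ℕ, q.Prime → ¬((q : ℤ) ^ 2 ∣ x ∧ (q : ℤ) ^ 3 ∣ y)
    · refine (hC x y hxy hp).trans (le_add_of_nonneg_of_le (Real.log_natCast_nonneg _) ?_)
      exact mul_le_mul_of_nonneg_right (mul_le_mul_of_nonneg_right (le_max_left _ _) (red3_sd _ _))
        (by positivity)
    · push Not at hp
      obtain ⟨q, hq, ⟨x', rfl⟩, ⟨y', rfl⟩⟩ := hp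
      have hq0 : (0 : ℝ) < q := by exact_mod_cast hq.pos
      have hq0' : (q : ℤ) ≠ 0 := by exact_mod_cast hq.ne_zero
      have hz : ((q : ℤ) ^ 2 * x') ^ 3 - ((q : ℤ) ^ 3 * y') ^ 2 = q ^ 6 * (x' ^ 3 - y' ^ 2) := by
        ring
      have hxy' : x' ^ 3 ≠ y' ^ 2 := fun e => hxy (by rw [← sub_eq_zero, hz, e, sub_self, mul_zero])
      have hne' : ¬(x' = 0 ∧ y' = 0) := fun h => hxy' (by rw [h.1, h.2]; norm_num)
      have hlt : x'.natAbs + y'.natAbs < n := by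
        rw [← hn, Int.natAbs_mul, Int.natAbs_mul, Int.natAbs_pow, Int.natAbs_pow, Int.natAbs_natCast]
        have h2 : 2 ≤ q ^ 2 := hq.two_le.trans (Nat.le_self_pow (by norm_num) q)
        have h3 : 2 ≤ q ^ 3 := hq.two_le.trans (Nat.le_self_pow (by norm_num) q)
        have h4 := Nat.mul_le_mul_right x'.natAbs h2
        have h5 := Nat.mul_le_mul_right y'.natAbs h3
        omega
      have h1 := ih _ hlt x' y' rfl hxy'
      have hm : max (|(((q : ℤ) ^ 2 * x' : ℤ) : ℝ)| ^ 3) ((((q : ℤ) ^ 3 * y' : ℤ) : ℝ) ^ 2) =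
          (q : ℝ) ^ 6 * max (|(x' : ℝ)| ^ 3) ((y' : ℝ) ^ 2) := by
        rw [mul_max_of_nonneg _ _ (by positivity)]
        push_cast
        rw [abs_mul, abs_of_nonneg (by positivity : (0 : ℝ) ≤ (q : ℝ) ^ 2)]
        ring_nf
      have hg : Int.gcd (((q : ℤ) ^ 2 * x') ^ 3) (((q : ℤ) ^ 3 * y') ^ 2) =
          q ^ 6 * Int.gcd (x' ^ 3) (y' ^ 2) := by
        rw [show ((q : ℤ) ^ 2 * x') ^ 3 = q ^ 6 * x' ^ 3 by ring,
          show ((q : ℤ) ^ 3 * y') ^ 2 = q ^ 6 * y' ^ 2 by ring, Int.gcd_mul_left, Int.natAbs_pow,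
          Int.natAbs_natCast]
      have hm0 : 0 < max (|(x' : ℝ)| ^ 3) ((y' : ℝ) ^ 2) := by
        rcases not_and_or.1 hne' with h | h
        · have : (x' : ℝ) ≠ 0 := by exact_mod_cast h
          exact lt_max_of_lt_left (by positivity)
        · have : (y' : ℝ) ≠ 0 := by exact_mod_cast h
          exact lt_max_of_lt_right (by positivity)
      have hg0 : (Int.gcd (x' ^ 3) (y' ^ 2) : ℝ) ≠ 0 := by
        have : Int.gcd (x' ^ 3) (y' ^ 2) ≠ 0 := fun e => hne' (by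
          have := Int.gcd_eq_zero_iff.1 e
          exact ⟨pow_eq_zero_iff (by norm_num) |>.1 this.1, pow_eq_zero_iff (by norm_num) |>.1 this.2⟩)
        exact_mod_cast this
      have r1 := red_rad (a := (x' ^ 3 - y' ^ 2).natAbs)
        (b := (((q : ℤ) ^ 2 * x') ^ 3 - ((q : ℤ) ^ 3 * y') ^ 2).natAbs)
        (Int.natAbs_dvd_natAbs.2 (hz ▸ dvd_mul_left _ _)) (Int.natAbs_ne_zero.2 (sub_ne_zero.2 hxy))
      have r2 := hMONO x' y' q hq hxy'
      rw [hm, hg, Nat.cast_mul, Nat.cast_pow, Real.log_mul (by positivity) hm0.ne',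
        Real.log_mul (by positivity) hg0, add_assoc]
      refine add_le_add le_rfl (h1.trans (add_le_add le_rfl ?_))
      exact mul_le_mul (mul_le_mul_of_nonneg_left r2 (le_max_right _ _))
        (Real.rpow_le_rpow (by positivity) r1 hε.le) (by positivity)
        (mul_nonneg (le_max_right _ _) (red3_sd _ _))

end Pool.Agent.MP_2a5a28_nt.H1D
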