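import Pool.Agent.MP_2a5a28_nt.H63Y.Top

/-! Definitions and row statements for the bound `√(discriminant) · rad ^ ε`. -/

set_option autoImplicit false

namespace Pool.Agent.MP_2a5a28_nt.H1D

open Finset NumberField Module
open H15Z H63Y

theorem gEMB : EMB_s := emb_row
theorem gPD : PD_s := pd_row
theorem gDET3 : DET3_s := det3_row
theorem gDIS2 : DIS2_s := dis2_row det2_row
theorem gDICH : DICH_s := dich_row line_row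
theorem gKC : KC_s := kc_row (kf2_row kill2_row orb_row emb_row)
  (kf3_row (kill3_row (core3_row cnt3_row sieg3_row (liou3_row (loc3_row poly_row)) aux3_row
    (zed3_row key_row) ht3_row)) cost3_row orb_row ht3_row) (colk_row resk_row) unitb_row

/-- Product of the primes with odd exponent in `x^3 - y^2`. -/
noncomputable def od (x y : ℤ) : ℝ :=
  ∏ p ∈ (x ^ 3 - y ^ 2).natAbs.primeFactors.filter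
    (fun p : ℕ => Odd ((x ^ 3 - y ^ 2).natAbs.factorization p)), (p : ℝ)

/-- The square root of the discriminant, up to a bounded factor. -/
noncomputable def SD (x y : ℤ) : ℝ := √(od x y) * ∏ p ∈ (Int.gcd x y).primeFactors.filter
    (fun p : ℕ => Even ((x ^ 3 - y ^ 2).natAbs.factorization p)), (p : ℝ)

/-- The final bound for the height of `ψ`. -/
def Bd3 {L : Type} [Field L] [NumberField L] (ε C : ℝ) (x y : ℤ) (t1 t2 : L) : Prop :=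
  ht (ps x t1 t2) ≤ C * SD x y * NN x y ^ ε

/-- A seminorm on `ℤ ^ 3`. -/
def Nrm (ν : (Fin 3 → ℤ) → ℝ) : Prop :=
  (∀ ξ, 0 ≤ ν ξ) ∧ (∀ (j : ℤ) ξ, ν (j • ξ) = |(j : ℝ)| * ν ξ) ∧ ∀ ξ ξ', ν (ξ + ξ') ≤ ν ξ + ν ξ'

/-! ### Lattices in `ℤ ^ 3` -/

/-- Every vector is a cross product; a vector orthogonal to two vectors of the plane of a
primitive vector is an integer multiple of it; primitive parts. -/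
def CROSS_s : Prop := (∀ ξ : Fin 3 → ℤ, ∃ u v : Fin 3 → ℤ, crossProduct u v = ξ) ∧
  (∀ ξ : Fin 3 → ℤ, ξ ≠ 0 → ∃ (g : ℕ) (ξ0 : Fin 3 → ℤ), 1 ≤ g ∧ ξ = (g : ℤ) • ξ0 ∧
    ∃ c : Fin 3 → ℤ, ∑ i, c i * ξ0 i = 1) ∧
  ∀ ξ0 c u v : Fin 3 → ℤ, ∑ i, c i * ξ0 i = 1 → ∑ i, ξ0 i * u i = 0 → ∑ i, ξ0 i * v i = 0 →
    ∃ j : ℤ, crossProduct u v = j • ξ0

def PL1_s : Prop := ∀ (ξ0 c : Fin 3 → ℤ) (J : ℕ) (S : Finset (Fin 3 → ℤ)), 1 ≤ J →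
  ∑ i, c i * ξ0 i = 1 →
  (∀ u ∈ S, ∀ v ∈ S, u ≠ v → ∃ j : ℤ, j ≠ 0 ∧ |j| ≤ J ∧ crossProduct u v = j • ξ0) →
  S.card ≤ 3 * J

def PL2_s : Prop := ∀ ν : (Fin 3 → ℤ) → ℝ, Nrm ν → ∀ (M : AddSubgroup (Fin 3 → ℤ)) (lam B : ℝ)
  (X : Finset (Fin 3 → ℤ)), 0 < lam → 0 ≤ B → (∀ ξ ∈ M, ξ ≠ 0 → lam ≤ ν ξ ^ 3) →
  (∀ ξ ∈ X, ξ ∈ M ∧ ξ ≠ 0 ∧ ν ξ ≤ B) → X.card * lam ≤ 27 * B ^ 3

def PLANE_s : Prop := ∀ ν : (Fin 3 → ℤ) → ℝ, Nrm ν →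
  ∀ (p k : ℕ) (M : ℕ → AddSubgroup (Fin 3 → ℤ)) (lam A : ℝ) (S Bad : Finset (Fin 3 → ℤ)),
  1 ≤ p → 0 < lam → 0 ≤ A →
  (∀ (g : ℕ) ξ, 1 ≤ g → (g : ℤ) • ξ ∈ M 0 → ∃ a ≤ k, p ^ a ∣ g ∧ ξ ∈ M a) →
  (∀ a ≤ k, ∀ ξ ∈ M a, ξ ≠ 0 → lam ≤ (p : ℝ) ^ a * ν ξ ^ 3) →
  (∀ u ∈ S, ∀ v ∈ S, u ≠ v → crossProduct u v ≠ 0 ∧ ν (crossProduct u v) ≤ A) → Bad ⊆ S →
  (∀ u ∈ Bad, ∃ v ∈ S, v ≠ u ∧ crossProduct u v ∈ M 0) →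
  Bad.card * lam ≤ 162 * (k + 1) * A ^ 3

/-! ### Few collisions in a cubic field -/

/-- Minimum of the lattice of minors. -/
def WMIN_s : Prop := ∀ (F L : Type) [Field F] [NumberField F] [Field L] [NumberField L],
  finrank ℚ F = 3 → ∀ (w : FinitePlace L) (φ : L →+* ℂ) (p κ N j : ℕ) (Q : Finset ℕ)
  (δ u u' : 𝓞 F) (b : Ideal (𝓞 F)) (σ : Fin 3 → (F →+* L)) (s : ℝ), p.Prime →
  w (p : L) = (nq w)⁻¹ → ¬(p : ℤ) ∣ NumberField.discr F → Function.Injective σ →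
  (∀ q ∈ Q, q.Prime) → 1 ≤ N → δ ≠ 0 → 0 ≤ s → Two δ N j (rho Q N) b → u ∈ b → u' ∈ b → u' ≠ 0 →
  (∀ q : ℚ, (u : F) ≠ q * (u' : F)) →
  w (rho Q N : L) ^ 2 * w (σ 0 u * σ 1 u' - σ 1 u * σ 0 u') ^ N ≤
    (nq w ^ κ)⁻¹ ^ N * (w (σ 0 δ) ^ j * w (σ 1 δ) ^ j) →
  (∀ a : Fin 3, ‖φ (σ a u * σ (a + 1) u' - σ (a + 1) u * σ a u')‖ ≤
    s * (‖φ (σ a δ)‖ ^ ((j : ℝ) / N) * ‖φ (σ (a + 1) δ)‖ ^ ((j : ℝ) / N))) →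
  (p : ℝ) ^ κ * √|(NumberField.discr F : ℝ)| ≤ Real.exp Q.card * s ^ 3

/-- Coordinates on an ideal of a cubic field and additive minors. -/
def COORD_s : Prop := ∀ (F L : Type) [Field F] [NumberField F] [Field L] [NumberField L],
  finrank ℚ F = 3 → ∀ (b : Ideal (𝓞 F)) (σ : Fin 3 → (F →+* L)), b ≠ ⊥ →
  ∃ (E : (Fin 3 → ℤ) → 𝓞 F) (m : Fin 3 → ((Fin 3 → ℤ) →+ L)), Function.Injective E ∧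
    (∀ c, E c ∈ b) ∧ (∀ u ∈ b, ∃ c, E c = u) ∧
    (∀ c c' a, m a (crossProduct c c') =
      σ a (E c) * σ (a + 1) (E c') - σ (a + 1) (E c) * σ a (E c')) ∧
    ∀ c c', crossProduct c c' ≠ 0 ↔ (E c' ≠ 0 ∧ ∀ q : ℚ, (E c : F) ≠ q * (E c' : F))

def MANY_s : Prop := ∀ (F L : Type) [Field F] [NumberField F] [Field L] [NumberField L],
  finrank ℚ F = 3 → ∀ (w : FinitePlace L) (p k N j : ℕ) (Q : Finset ℕ) (δ : 𝓞 F)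
  (b : Ideal (𝓞 F)) (σ : Fin 3 → (F →+* L)) (r : ℝ) (S : Finset (𝓞 F)), p.Prime →
  w (p : L) = (nq w)⁻¹ → ¬(p : ℤ) ∣ NumberField.discr F → Function.Injective σ →
  (∀ q ∈ Q, q.Prime) → 1 ≤ N → δ ≠ 0 → 0 < r → Two δ N j (rho Q N) b →
  (∀ u ∈ S, u ∈ b ∧ u ≠ 0 ∧ Box (δ : F) N j r (u : F)) →
  (∀ u ∈ S, ∀ u' ∈ S, u ≠ u' → ∀ q : ℚ, (u : F) ≠ q * (u' : F)) →
  ∃ S' ⊆ S, ((S.card : ℝ) - S'.card) * ((p : ℝ) ^ k * √|(NumberField.discr F : ℝ)|) ≤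
      1296 * (k + 1) * Real.exp Q.card * r ^ 6 ∧
    ∀ u ∈ S', ∀ u' ∈ S', Cw w k (fun a => σ a u) (fun a => σ a u') → u = u'

def FAMX_s : Prop := ∀ (L : Type) [Field L] [NumberField L] (x y : ℤ) (t1 t2 t3 : L),
  Cub x y t1 t2 t3 → ∀ (δ : ℝ) (p : ℕ) (w : FinitePlace L) (T : ℕ), Big δ x y t1 t2 p w T →
  ∀ (N c I k l : ℕ) (r r0 : ℝ), 1 ≤ N → 1 ≤ c → 1 ≤ I → 0 < r → 0 < r0 → l.Prime →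
  Real.exp (Qs x y).card * √(DF t1) * l ≤ r ^ dg t1 → r ≤ l * r0 →
  r0 ^ dg t1 * Real.exp (Qs x y).card < 1 →
  (dg t1 = 2 → 8 * Real.exp (Qs x y).card * r ^ 2 < (p : ℝ) ^ k * √(DF t1)) →
  (dg t1 = 3 → 2592 * (k + 1) * Real.exp (Qs x y).card * r ^ 6 ≤ l * ((p : ℝ) ^ k * √(DF t1))) →
  ∃ J : Finset ℕ, (I : ℝ) ≤ 2 * Kc (Qs x y) * J.card ∧ ∀ i ∈ J, c ∣ i ∧ i < c * I ∧
    ∃ S : Finset (Fin 3 → L), l / 2 ≤ S.card ∧ (∀ Y ∈ S, Apx x y t1 t2 t3 N i r Y) ∧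
      ∀ Y ∈ S, ∀ Y' ∈ S, Cw w k Y Y' → Y = Y'

/-! ### Parameters and the final bound -/

def ARI_s : Prop := ∀ ε lam : ℝ, 0 < ε → 0 < lam → ∃ (σ c0 : ℝ) (k : ℕ),
  0 < σ ∧ σ ≤ 1 / 100 ∧ 0 ≤ c0 ∧ 1 ≤ k ∧ ∀ (n p : ℕ) (D q M : ℝ), 2 ≤ n → n ≤ 3 → 2 ≤ p → 1 ≤ D →
  0 ≤ q → 2 ≤ M → D ≤ 432 * M → p ≤ M → Real.log M ≤ lam * Real.log p →
  c0 + c0 * q ≤ Real.log p → ∃ (r r0 : ℝ) (l : ℕ), 1 ≤ r ∧ 0 < r0 ∧ l.Prime ∧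
    n * Real.log r + q ≤ (1 - 18 * σ) * (k * Real.log p) ∧ Real.exp q * √D * l ≤ r ^ n ∧
    r ≤ l * r0 ∧ r0 ^ n * Real.exp q < 1 ∧
    (n = 2 → 8 * Real.exp q * r ^ 2 < (p : ℝ) ^ k * √D) ∧
    (n = 3 → 2592 * (k + 1) * Real.exp q * r ^ 6 ≤ l * ((p : ℝ) ^ k * √D)) ∧
    (p : ℝ) ^ k ≤ l * (2 * √D * M ^ ε)

/-- The large unramified prime. -/
def CPU3_s : Prop := ∀ δ ε η : ℝ, 0 < δ → 0 < ε → 0 < η → ∃ c0 C : ℝ, 0 ≤ c0 ∧ 0 ≤ C ∧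
  ∀ (L : Type) [Field L] [NumberField L] (x y : ℤ) (t1 t2 t3 : L), Cub x y t1 t2 t3 →
  ∀ (p : ℕ) (w : FinitePlace L) (T : ℕ), p ∈ Qs x y → Big δ x y t1 t2 p w T →
    c0 + c0 * (Qs x y).card ≤ Real.log p → η * Real.log (Rad x y) ≤ Real.log p →
    (T : ℝ) ≤ C * SD x y * NN x y ^ ε

def SQF3_s : Prop := ∀ x y : ℤ, Prim x y → x ^ 3 - y ^ 2 ≠ 0 → 1 ≤ SD x y ∧ ∃ a : ℕ, Sq x y a ∧
  432 ≤ DD x y a ∧ DD x y a ≤ 432 * NN x y ∧ DD x y a ≤ 432 * SD x y ^ 2 ∧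
  ∀ η : ℝ, 0 ≤ η → η ≤ 1 / 2 → DD x y a ^ (1 / 2 + η) ≤ 432 * (SD x y * NN x y ^ η)

def CA3_s : Prop := ∀ δ ε : ℝ, 0 < δ → 0 < ε → ∃ C : ℝ, 0 ≤ C ∧
  ∀ (L : Type) [Field L] [NumberField L] (x y : ℤ) (t1 t2 t3 : L), Cub x y t1 t2 t3 →
  ∀ φ : L →+* ℂ, δ * ht (ps x t1 t2) ≤ -lg (Sum.inl φ) (ps x t1 t2 - 1) → Bd3 ε C x y t1 t2

def CS3_s : Prop := ∀ δ ε : ℝ, 0 < δ → 0 < ε → ∃ η : ℝ, 0 < η ∧ ∀ c0 : ℝ, 0 ≤ c0 → ∃ C : ℝ, 0 ≤ C ∧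
  ∀ (L : Type) [Field L] [NumberField L] (x y : ℤ) (t1 t2 t3 : L), Cub x y t1 t2 t3 →
  ∀ S : Finset (FinitePlace L), (∀ w ∈ S, w (ps x t1 t2 - 1) < 1 ∧ ∃ q ∈ Qs x y, w (q : L) < 1 ∧
      Real.log q ≤ c0 + c0 * (Qs x y).card + η * Real.log (Rad x y)) →
    δ * ht (ps x t1 t2) ≤ ∑ w ∈ S, -lg (Sum.inr w) (ps x t1 t2 - 1) → Bd3 ε C x y t1 t2

def CP3_s : Prop := ∀ δ ε η : ℝ, 0 < δ → 0 < ε → 0 < η → ∃ c0 : ℝ, 0 ≤ c0 ∧ ∃ C : ℝ, 0 ≤ C ∧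
  ∀ (L : Type) [Field L] [NumberField L] (x y : ℤ) (t1 t2 t3 : L), Cub x y t1 t2 t3 →
  ∀ (p : ℕ) (w : FinitePlace L), p ∈ Qs x y → w (p : L) < 1 →
    c0 + c0 * (Qs x y).card ≤ Real.log p → η * Real.log (Rad x y) ≤ Real.log p →
    w (ps x t1 t2 - 1) < 1 →
    δ * ht (ps x t1 t2) ≤ -lg (Sum.inr w) (ps x t1 t2 - 1) → Bd3 ε C x y t1 t2

def MAIN3_s : Prop := ∀ ε : ℝ, 0 < ε → ∃ C : ℝ, 0 ≤ C ∧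
  ∀ (L : Type) [Field L] [NumberField L] (x y : ℤ) (t1 t2 t3 : L), Cub x y t1 t2 t3 →
    Bd3 ε C x y t1 t2

def TOP3_s : Prop := ∀ ε : ℝ, 0 < ε → ∃ C : ℝ, ∀ x y : ℤ, x ^ 3 ≠ y ^ 2 →
  (∀ q : ℕ, q.Prime → ¬((q : ℤ) ^ 2 ∣ x ∧ (q : ℤ) ^ 3 ∣ y)) →
  Real.log (max (|(x : ℝ)| ^ 3) ((y : ℝ) ^ 2)) ≤
    C * SD x y * (∏ p ∈ (x ^ 3 - y ^ 2).natAbs.primeFactors, (p : ℝ)) ^ ε

/-- `SD` does not decrease under the scaling `(x, y) ↦ (q^2 x, q^3 y)`. -/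
def MONO_s : Prop := ∀ (x y : ℤ) (q : ℕ), q.Prime → x ^ 3 ≠ y ^ 2 →
  SD x y ≤ SD ((q : ℤ) ^ 2 * x) ((q : ℤ) ^ 3 * y)

def RED3_s : Prop := ∀ ε : ℝ, 0 < ε → ∃ C : ℝ, ∀ x y : ℤ, x ^ 3 ≠ y ^ 2 →
  Real.log (max (|(x : ℝ)| ^ 3) ((y : ℝ) ^ 2)) ≤ Real.log (Int.gcd (x ^ 3) (y ^ 2)) +
    C * SD x y * (∏ p ∈ (x ^ 3 - y ^ 2).natAbs.primeFactors, (p : ℝ)) ^ ε

end Pool.Agent.MP_2a5a28_nt.H1D
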