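import Pool.Agent.MP_2a5a28_nt.H1D.A
import Pool.Agent.MP_2a5a28_nt.H1D.B

set_option autoImplicit false

namespace Pool.Agent.MP_2a5a28_nt.H1D

theorem top : RED3_s := by
  have hCROSS : CROSS_s := cross_row
  have hPL1 : PL1_s := pl1_row
  have hPL2 : PL2_s := pl2_row
  have hPLANE : PLANE_s := plane_row hCROSS hPL1 hPL2
  have hWMIN : WMIN_s := wmin_row
  have hCOORD : COORD_s := coord_row
  have hMANY : MANY_s := many_row hCROSS hPLANE hWMIN hCOORD
  have hFAMX : FAMX_s := famx_row hMANY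
  have hARI : ARI_s := ari_row
  have hSQF3 : SQF3_s := sqf3_row
  have hCPU3 : CPU3_s := cpu3_row hFAMX hARI hSQF3
  have hCA3 : CA3_s := ca3_row hSQF3
  have hCS3 : CS3_s := cs3_row hSQF3
  have hCP3 : CP3_s := cp3_row hCPU3 hSQF3
  have hMAIN3 : MAIN3_s := main3_row hCA3 hCS3 hCP3 hSQF3
  have hTOP3 : TOP3_s := top3_row hMAIN3 hSQF3
  have hMONO : MONO_s := mono_row
  have hRED3 : RED3_s := red3_row hTOP3 hMONO
  exact hRED3

end Pool.Agent.MP_2a5a28_nt.H1D
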